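import Pool.Agent.Lib.MP_99c1f3_lc.CG.Iface

/-!
# CG3, block Q, module Defs: the poset `P₀`

A condition of `P₀` is a pair `(t, f)`, `t` a condition of `T`, `f` a condition of the second
step: `f` has height `eta : L`, ladders `lam d` for `d ≤ eta` of cofinality `κ`, a set `A` of at
most `κ` coordinates and for `x ∈ A` a name `D x` of a closed subset of `eta + 1`. These names are
`UC`-names, `UC` being the poset of the finite approximations of one club `e` of `κ`.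
-/

set_option autoImplicit false

namespace Pool.Agent.CG3

open Pool.Agent.Lib.SymModel Set

/-- If `ν` is not decided, it can be put outside of the club. -/
theorem exists_outU {u : UC} {ν : K0} (h : ¬ In u.1 ν) : ∃ v ≤ u, Out v.1 ν := by
  classical
  by_cases ho : Out u.1 ν
  · exact ⟨u, le_rfl, ho⟩
  have h0 : {p ∈ u.1 | p.1 < ν}.Nonempty := by
    obtain ⟨p, hp, h1⟩ := u.2.zero
    refine ⟨p, hp, ?_⟩
    rw [h1]
    refine lt_of_le_of_ne zero_le fun h2 => h ?_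
    rw [← h2]
    exact u.2.zero
  obtain ⟨m, ⟨hm, hmν⟩, hmax⟩ := (u.2.fin.subset (sep_subset _ _)).exists_maximalFor
    (fun p : K0 × K0 => p.1) {p ∈ u.1 | p.1 < ν} h0
  have hmax' : ∀ p ∈ u.1, p.1 < ν → p.1 ≤ m.1 := by
    intro p hp h1
    rcases le_total p.1 m.1 with h2 | h2
    · exact h2
    · exact hmax ⟨hp, h1⟩ h2
  have hmb : m.2 < ν := by
    by_contra h1
    exact ho ⟨m, hm, hmν, not_lt.1 h1⟩
  let f : K0 × K0 → K0 × K0 := fun p => if p = m then (m.1, ν) else p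
  have hf1 : ∀ p, (f p).1 = p.1 := by
    intro p
    simp only [f]
    split_ifs with h1
    · rw [h1]
    · rfl
  have hf2 : ∀ p, p.2 ≤ (f p).2 := by
    intro p
    simp only [f]
    split_ifs with h1
    · rw [h1]; exact hmb.le
    · exact le_rfl
  have hfU : IsU (f '' u.1) := by
    refine ⟨u.2.fin.image f, ?_, ?_, ?_, ?_⟩
    · obtain ⟨p, hp, h1⟩ := u.2.zero
      exact ⟨f p, ⟨p, hp, rfl⟩, (hf1 p).trans h1⟩
    · rintro _ ⟨p, hp, rfl⟩
      rw [hf1]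
      exact (u.2.le p hp).trans (hf2 p)
    · rintro _ ⟨p, hp, rfl⟩ _ ⟨q, hq, rfl⟩ h1
      rw [hf1, hf1] at h1
      rw [u.2.uni p hp q hq h1]
    · rintro _ ⟨p, hp, rfl⟩ _ ⟨q, hq, rfl⟩ h1
      rw [hf1, hf1] at h1
      rw [hf1]
      by_cases h2 : p = m
      · have h3 : (f p).2 = ν := by simp only [f]; rw [if_pos h2]
        rw [h3]
        by_contra h4
        rw [not_lt] at h4
        rcases h4.lt_or_eq with h5 | h5
        · exact absurd (hmax' q hq h5) (not_le.2 (h2 ▸ h1))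
        · exact h ⟨q, hq, h5⟩
      · have h3 : f p = p := by simp only [f]; rw [if_neg h2]
        rw [h3]
        exact u.2.sep p hp q hq h1
  have hf3 : (f m).2 = ν := by simp [f]
  exact ⟨⟨f '' u.1, hfU⟩, fun p hp => ⟨f p, ⟨p, hp, rfl⟩, hf1 p, hf2 p⟩,
    f m, ⟨m, hm, rfl⟩, by rw [hf1]; exact hmν, hf3.ge⟩

/-- The value of `ν ∈ e` for the generic club `e`. -/
def eU (ν : K0) : RO UC where
  carrier := {u | In u.1 ν}
  reg u := by
    constructor
    · intro h v hv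
      exact ⟨v, le_rfl, In.mono h hv⟩
    · intro h
      by_contra h1
      obtain ⟨v, hv, h2⟩ := exists_outU h1
      obtain ⟨w, hw, h3⟩ := h v hv
      obtain ⟨q, hq, h5⟩ := In.of_dec w.2 hw (Or.inr h2) h3
      obtain ⟨r, hr, h6, h7⟩ := h2
      have h8 := v.2.sep r hr q hq (h5 ▸ h6)
      rw [h5] at h8
      exact absurd h7 (not_le.2 h8)

theorem mem_eU {u : UC} {ν : K0} : u ∈ eU ν ↔ In u.1 ν := Iff.rfl

/-- Raw conditions of the second step. -/
structure QR (I : Type 1) : Type 1 where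
  /-- the height -/
  eta : L
  /-- the ladders -/
  lam : L → K0 → L
  /-- the collapse of the power set of `κ` -/
  h : L → Set K0
  /-- the coordinates -/
  A : Set I
  /-- the names of closed sets -/
  D : I → L → RO UC

variable {I : Type 1}

/-- Conditions of the second step. -/
structure IsQ (f : QR I) : Prop where
  szA : SzK f.A
  lamOk : ∀ d ≤ f.eta, (∃ l, IsLad d l) → IsLad d (f.lam d)
  lamJ : ∀ d, (f.eta < d ∨ ¬ ∃ l, IsLad d l) → f.lam d = fun _ => d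
  hJ : ∀ d, f.eta < d → f.h d = ∅
  DJ : ∀ x d, (x ∉ f.A ∨ f.eta < d) → f.D x d = ⊥
  clo : ∀ x ∈ f.A, ∀ γ ≤ f.eta, (∃ α, α < γ) → ∀ u : UC,
    (∀ α < γ, ∀ v ≤ u, ∃ w ≤ v, ∃ β, α < β ∧ β < γ ∧ w ∈ f.D x β) → u ∈ f.D x γ
  lad : ∀ x ∈ f.A, ∀ d ≤ f.eta, (∃ l, IsLad d l) → ∀ u : UC, ∃ v ≤ u, ∃ β, ∀ ν, β < ν →
    ∀ w ≤ v, w ∈ f.D x (f.lam d ν) → In w.1 ν

/-- The conditions of the second step. -/
def QC (I : Type 1) : Type 1 := {f : QR I // IsQ f}

/-- `g` extends `f`, apart from the names. -/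
structure Ext (g f : QR I) : Prop where
  eta : f.eta ≤ g.eta
  lam : ∀ d ≤ f.eta, g.lam d = f.lam d
  h : ∀ d ≤ f.eta, g.h d = f.h d
  A : f.A ⊆ g.A

theorem Ext.refl (f : QR I) : Ext f f := ⟨le_rfl, fun _ _ => rfl, fun _ _ => rfl, subset_rfl⟩

theorem Ext.trans {g f e : QR I} (h1 : Ext g f) (h2 : Ext f e) : Ext g e :=
  ⟨h2.eta.trans h1.eta, fun d hd => (h1.lam d (hd.trans h2.eta)).trans (h2.lam d hd),
    fun d hd => (h1.h d (hd.trans h2.eta)).trans (h2.h d hd), h2.A.trans h1.A⟩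

/-- The strong order: `g` end-extends `f`, for every coordinate. -/
instance : Preorder (QC I) where
  le g f := Ext g.1 f.1 ∧ ∀ x ∈ f.1.A, ∀ ν ≤ f.1.eta, g.1.D x ν = f.1.D x ν
  le_refl f := ⟨Ext.refl _, fun _ _ _ _ => rfl⟩
  le_trans g f e h1 h2 := ⟨h1.1.trans h2.1, fun x hx ν hν =>
    (h1.2 x (h2.1.A hx) ν (hν.trans h2.1.eta)).trans (h2.2 x hx ν hν)⟩

theorem QC.le_def {g f : QC I} :
    g ≤ f ↔ Ext g.1 f.1 ∧ ∀ x ∈ f.1.A, ∀ ν ≤ f.1.eta, g.1.D x ν = f.1.D x ν := Iff.rfl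

/-- The order interpreted by `t`: every `pr x t` forces that `g.D x` end-extends `f.D x`. -/
def WLe (t : TC I) (g f : QC I) : Prop :=
  Ext g.1 f.1 ∧ ∀ x ∈ f.1.A, ∀ ν ≤ f.1.eta, ∀ u ≤ pr x t, (u ∈ g.1.D x ν ↔ u ∈ f.1.D x ν)

theorem WLe.of_le {t : TC I} {g f : QC I} (h : g ≤ f) : WLe t g f :=
  ⟨h.1, fun x hx ν hν u _ => by rw [h.2 x hx ν hν]⟩

theorem WLe.refl (t : TC I) (f : QC I) : WLe t f f := WLe.of_le le_rfl

theorem WLe.mono {t' t : TC I} {g f : QC I} (h : WLe t g f) (ht : t' ≤ t) : WLe t' g f :=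
  ⟨h.1, fun x hx ν hν u hu => h.2 x hx ν hν u (hu.trans (pr_mono x ht))⟩

theorem WLe.trans {t : TC I} {g f e : QC I} (h1 : WLe t g f) (h2 : WLe t f e) : WLe t g e :=
  ⟨h1.1.trans h2.1, fun x hx ν hν u hu =>
    (h1.2 x (h2.1.A hx) ν (hν.trans h2.1.eta) u hu).trans (h2.2 x hx ν hν u hu)⟩

/-- The conditions of `P₀`. -/
structure PC (I : Type 1) : Type 1 where
  /-- the first coordinate -/
  t : TC I
  /-- the second coordinate -/
  f : QC I

instance : Preorder (PC I) where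
  le p' p := p'.t ≤ p.t ∧ WLe p'.t p'.f p.f
  le_refl p := ⟨le_rfl, WLe.refl _ _⟩
  le_trans p'' p' p h1 h2 := ⟨h1.1.trans h2.1, h1.2.trans (h2.2.mono h1.1)⟩

theorem PC.le_def {p' p : PC I} : p' ≤ p ↔ p'.t ≤ p.t ∧ WLe p'.t p'.f p.f := Iff.rfl

/-- `g` end-extends `f` and for coordinates in `K` new elements are forced only by `i ∈ e`. -/
def MExt (K : Set I) (i : K0) (g f : QC I) : Prop :=
  g ≤ f ∧ ∀ x ∈ f.1.A, x ∈ K → ∀ ν, f.1.eta < ν → g.1.D x ν ≤ eU i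

end Pool.Agent.CG3
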