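import Pool.Agent.Lib.MP_99c1f3_lc.CG.Q.LCof
import Pool.Agent.Lib.MP_99c1f3_lc.CG.Q.Defs

/-!
# CG3, block Q, module Bump: raising the height without or with one new element

PROOF of `bump`. `g`: height `η`; for `d ≤ f.eta` the ladders and `h` of `f`; for `f.eta < d ≤ η` with
a ladder choose one, `g.lam d = fun _ => d` for all other `d > f.eta`; `g.h η = H`,
`g.h d = ∅` for all other `d > f.eta`; `D x ν = f.D x ν` for `ν ≤ f.eta`, `D x η = ⊤` for `x ∈ Y`, all
other values `⊥`. (For `x ∉ f.A` `f.D x = ⊥`.) `clo` at `γ`: if `γ ≤ f.eta`: from `f` if `x ∈ f.A`, and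
vacuous otherwise (the hypothesis fails since `D x β = ⊥` for `β < γ`, at any `α < γ`); if
`γ > f.eta`: hypothesis at `α = f.eta` gives `β ∈ (f.eta, γ)`, `β < γ ≤ η`, with `w ∈ D x β = ⊥`:
contradiction. `lad` at `d`: if `d ≤ f.eta`: from `f` resp. vacuous; if `d > f.eta`: take `β` with
`f.eta < lam d β`; for `ν > β`: `f.eta < lam d ν < d ≤ η`, so the value is `⊥`.
-/

set_option autoImplicit false

namespace Pool.Agent.CG3

open Pool.Agent.Lib.SymModel Set

variable {I : Type 1}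

theorem bump (f : QC I) {η : L} (hη : f.1.eta < η) {A : Set I} (hA : f.1.A ⊆ A) (hs : SzK A)
    {Y : Set I} (hY : Y ⊆ A) (H : Set K0) :
    ∃ g ≤ f, g.1.eta = η ∧ g.1.A = A ∧ g.1.h η = H ∧ (∀ x ∈ Y, g.1.D x η = ⊤) ∧
      ∀ x ν, f.1.eta < ν → (x ∉ Y ∨ ν ≠ η) → g.1.D x ν = ⊥ := by
  classical
  let lam : L → K0 → L := fun d => if d ≤ f.1.eta then f.1.lam d else
    if h : d ≤ η ∧ ∃ l, IsLad d l then h.2.choose else fun _ => d
  let hh : L → Set K0 := fun d => if d ≤ f.1.eta then f.1.h d else if d = η then H else ∅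
  let D : I → L → RO UC := fun x ν => if ν ≤ f.1.eta then f.1.D x ν else
    if x ∈ Y ∧ ν = η then ⊤ else ⊥
  have lam1 : ∀ d, d ≤ f.1.eta → lam d = f.1.lam d := fun d hd => if_pos hd
  have lam2 : ∀ d, ¬ d ≤ f.1.eta → (h : d ≤ η ∧ ∃ l, IsLad d l) → IsLad d (lam d) := by
    intro d hd h
    have h1 : lam d = h.2.choose := by
      simp only [lam]
      rw [if_neg hd, dif_pos h]
    rw [h1]
    exact h.2.choose_spec
  have lam3 : ∀ d, ¬ d ≤ f.1.eta → ¬ (d ≤ η ∧ ∃ l, IsLad d l) → lam d = fun _ => d := by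
    intro d hd h
    simp only [lam]
    rw [if_neg hd, dif_neg h]
  have h1 : ∀ d, d ≤ f.1.eta → hh d = f.1.h d := fun d hd => if_pos hd
  have D1 : ∀ x ν, ν ≤ f.1.eta → D x ν = f.1.D x ν := fun x ν hν => if_pos hν
  have D2 : ∀ x ν, ¬ ν ≤ f.1.eta → (x ∉ Y ∨ ν ≠ η) → D x ν = ⊥ := by
    intro x ν hν h
    simp only [D]
    rw [if_neg hν, if_neg]
    rintro ⟨h2, h3⟩
    rcases h with h | h
    · exact h h2
    · exact h h3
  have D3 : ∀ x ∈ Y, D x η = ⊤ := by
    intro x hx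
    change (if η ≤ f.1.eta then f.1.D x η else if x ∈ Y ∧ η = η then ⊤ else ⊥) = ⊤
    rw [if_neg (not_le.2 hη), if_pos ⟨hx, rfl⟩]
  have hg : IsQ (⟨η, lam, hh, A, D⟩ : QR I) := by
    refine ⟨hs, ?_, ?_, ?_, ?_, ?_, ?_⟩
    · intro d hd hl
      change IsLad d (lam d)
      by_cases h : d ≤ f.1.eta
      · rw [lam1 d h]; exact f.2.lamOk d h hl
      · exact lam2 d h ⟨hd, hl⟩
    · intro d hd
      change lam d = fun _ => d
      change η < d ∨ ¬ ∃ l, IsLad d l at hd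
      by_cases h : d ≤ f.1.eta
      · rw [lam1 d h]
        refine f.2.lamJ d (Or.inr ?_)
        rcases hd with hd | hd
        · exact absurd (h.trans_lt hη) (not_lt.2 hd.le)
        · exact hd
      · refine lam3 d h ?_
        rintro ⟨h2, h3⟩
        rcases hd with hd | hd
        · exact absurd h2 (not_le.2 hd)
        · exact hd h3
    · intro d hd
      change hh d = ∅
      change η < d at hd
      simp only [hh]
      rw [if_neg (not_le.2 (hη.trans hd)), if_neg (ne_of_gt hd)]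
    · intro x d hd
      change D x d = ⊥
      change x ∉ A ∨ η < d at hd
      by_cases h : d ≤ f.1.eta
      · rw [D1 x d h]
        refine f.2.DJ x d (Or.inl fun h2 => ?_)
        rcases hd with hd | hd
        · exact hd (hA h2)
        · exact absurd (h.trans_lt hη) (not_lt.2 hd.le)
      · refine D2 x d h ?_
        rcases hd with hd | hd
        · exact Or.inl fun h2 => hd (hY h2)
        · exact Or.inr (ne_of_gt hd)
    · intro x _ γ hγ hne u hu
      change u ∈ D x γ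
      change γ ≤ η at hγ
      change ∀ α < γ, ∀ v ≤ u, ∃ w ≤ v, ∃ β, α < β ∧ β < γ ∧ w ∈ D x β at hu
      by_cases h : γ ≤ f.1.eta
      · by_cases hx : x ∈ f.1.A
        · rw [D1 x γ h]
          refine f.2.clo x hx γ h hne u fun α hα v hv => ?_
          obtain ⟨w, hw, β, hβ1, hβ2, hβ3⟩ := hu α hα v hv
          rw [D1 x β (hβ2.le.trans h)] at hβ3
          exact ⟨w, hw, β, hβ1, hβ2, hβ3⟩
        · obtain ⟨α, hα⟩ := hne
          obtain ⟨w, hw, β, hβ1, hβ2, hβ3⟩ := hu α hα u le_rfl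
          rw [D1 x β (hβ2.le.trans h), f.2.DJ x β (Or.inl hx)] at hβ3
          exact absurd hβ3 (RO.notMem_bot _)
      · obtain ⟨w, hw, β, hβ1, hβ2, hβ3⟩ := hu f.1.eta (not_le.1 h) u le_rfl
        rw [D2 x β (not_le.2 hβ1) (Or.inr (ne_of_lt (hβ2.trans_le hγ)))] at hβ3
        exact absurd hβ3 (RO.notMem_bot _)
    · intro x _ d hd hl u
      change d ≤ η at hd
      change ∃ v ≤ u, ∃ β, ∀ ν, β < ν → ∀ w ≤ v, w ∈ D x (lam d ν) → In w.1 ν
      by_cases h : d ≤ f.1.eta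
      · rw [lam1 d h]
        have h2 := f.2.lamOk d h hl
        by_cases hx : x ∈ f.1.A
        · obtain ⟨v, hv, β, hβ⟩ := f.2.lad x hx d h hl u
          refine ⟨v, hv, β, fun ν hν w hw h3 => hβ ν hν w hw ?_⟩
          rw [D1 x _ ((h2.lt ν).le.trans h)] at h3
          exact h3
        · refine ⟨u, le_rfl, 0, fun ν _ w _ h3 => ?_⟩
          rw [D1 x _ ((h2.lt ν).le.trans h), f.2.DJ x _ (Or.inl hx)] at h3
          exact absurd h3 (RO.notMem_bot _)
      · have h2 := lam2 d h ⟨hd, hl⟩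
        obtain ⟨β, hβ⟩ := h2.cof f.1.eta (not_le.1 h)
        refine ⟨u, le_rfl, β, fun ν hν w _ h3 => ?_⟩
        have h4 : f.1.eta < lam d ν := hβ.trans (h2.mono hν)
        rw [D2 x _ (not_le.2 h4) (Or.inr (ne_of_lt ((h2.lt ν).trans_le hd)))] at h3
        exact absurd h3 (RO.notMem_bot _)
  refine ⟨⟨⟨η, lam, hh, A, D⟩, hg⟩, ⟨⟨hη.le, lam1, h1, hA⟩, fun x _ ν hν => D1 x ν hν⟩, rfl, rfl, ?_,
    D3, fun x ν hν h => D2 x ν (not_le.2 hν) h⟩
  change (if η ≤ f.1.eta then f.1.h η else if η = η then H else ∅) = H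
  rw [if_neg (not_le.2 hη), if_pos rfl]

private theorem Bump.L_ne : Nonempty L := by
  rw [Ordinal.nonempty_toType_iff]
  intro h
  have h1 : Order.succ kap = 0 := by
    rw [← Cardinal.ord_eq_zero]; exact h
  exact absurd h1 (Order.succ_ne_bot kap)

/-- There is a condition. -/
theorem QC_ne : Nonempty (QC I) := by
  have := Bump.L_ne
  obtain ⟨m, _, hm⟩ := WellFounded.has_min (wellFounded_lt (α := L)) univ univ_nonempty
  have hm' : ∀ d, ¬ d < m := fun d hd => hm d (mem_univ d) hd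
  have hno : ∀ d ≤ m, ¬ ∃ l, IsLad d l := by
    rintro d hd ⟨l, hl⟩
    exact hm' _ ((hl.lt 0).trans_le hd)
  refine ⟨⟨⟨m, fun d _ => d, fun _ => ∅, ∅, fun _ _ => ⊥⟩, ⟨⟨fun _ => 0, injOn_empty _⟩, ?_, ?_, ?_, ?_,
    ?_, ?_⟩⟩⟩
  · intro d hd hl
    exact absurd hl (hno d hd)
  · intro d _
    rfl
  · intro d _
    rfl
  · intro x d _
    rfl
  · intro x hx
    exact hx.elim
  · intro x hx
    exact hx.elim

theorem PC_ne : Nonempty (PC I) := by
  obtain ⟨f⟩ := QC_ne (I := I)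
  refine ⟨⟨⟨⟨0, ∅, fun _ => ∅, ∅⟩, ⟨∅, ∅, fun _ => ∅, ∅⟩, ?_, ?_⟩, f⟩⟩
  · refine ⟨?_, ?_, ?_, fun _ _ => rfl, ?_, ?_, ?_, ?_⟩
    · change Small.{0} (∅ : Set I); infer_instance
    · change Small.{0} (∅ : Set (K0 × Set I)); infer_instance
    · intro x ν hν; exact hν.elim
    · intro p hp; exact hp.elim
    · intro p hp; exact hp.elim
    · intro p hp; exact hp.elim
    · intro p hp; exact hp.elim
  · refine ⟨finite_empty, subset_rfl, finite_empty, subset_rfl, ?_, ?_, fun _ _ => rfl, ?_,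
      ⟨finite_empty, ?_, ?_⟩⟩
    · intro x hx; exact hx.elim
    · intro x hx; exact hx.elim
    · intro x hx; exact hx.elim
    · intro p hp; exact hp.elim
    · intro p hp; exact hp.elim

end Pool.Agent.CG3
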