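import Pool.Agent.Lib.MP_99c1f3_lc.CG.T.Defs

/-!
# CG3, block Q, module Good: closure points of an increasing chain of small sets

PROOF of `exists_good`. For `a : K0` let `c a := (max (Order.succ (Cardinal.mk (Shrink (K a)))
(max (Order.succ a.card) Cardinal.aleph0)).ord` (`a < c a`, `c a` is the initial ordinal of an
infinite cardinal which is `> #(K a)`). `a 0 := c j`, `a (n+1) := c (a n)`; `i` = the supremum
of the `a n` (a countable family in `Ordinal.{0}`); it is not attained. `i` is the initial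
ordinal of the infinite cardinal `sup (a n).card` (e.g. `i = i.card.ord`: if `b < i` then `b < a
n` for some `n`, so `b.card < (a n).card ≤ i.card`), so it is a limit ordinal and additively
closed (`Ordinal.isPrincipal_add_ord` or from `b.card + b'.card < i.card` for `b, b' < i`). `K i
⊆ ⋃ n, K (a n)` (by `hc` and `hm`), each `K (a n)` has size `< (a (n+1)).card ≤ i.card`, so the
(small) set `K i` has size at most `ℵ₀ * i.card = i.card` and injects into `Iio i`.
-/

set_option autoImplicit false

namespace Pool.Agent.CG3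

open Set

/-- The next cardinal. -/
private noncomputable def goodC {I : Type 1} (K : K0 → Set I) (hs : ∀ i, Small.{0} (K i))
    (a : K0) : Cardinal.{0} :=
  max (Order.succ (@Cardinal.mk (@Shrink.{0} (K a) (hs a))))
    (max (Order.succ a.card) Cardinal.aleph0)

/-- The sequence of cardinals. -/
private noncomputable def goodM {I : Type 1} (K : K0 → Set I) (hs : ∀ i, Small.{0} (K i))
    (j : K0) : ℕ → Cardinal.{0}
  | 0 => goodC K hs j
  | n + 1 => goodC K hs (goodM K hs j n).ord

private theorem goodC_mk {I : Type 1} (K : K0 → Set I) (hs : ∀ i, Small.{0} (K i)) (a : K0) :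
    Cardinal.mk (K a) < Cardinal.lift.{1} (goodC K hs a) := by
  have := hs a
  have h1 : Cardinal.mk (K a) = Cardinal.lift.{1} (Cardinal.mk (Shrink.{0} (K a))) := by
    have h2 := Cardinal.lift_mk_eq'.2 ⟨equivShrink.{0} (K a)⟩
    rw [Cardinal.lift_id'.{0, 1}] at h2
    exact h2
  rw [h1, Cardinal.lift_lt]
  exact (Order.lt_succ _).trans_le (le_max_left _ _)

private theorem goodC_card {I : Type 1} (K : K0 → Set I) (hs : ∀ i, Small.{0} (K i)) (a : K0) :
    a.card < goodC K hs a :=
  (Order.lt_succ _).trans_le ((le_max_left _ _).trans (le_max_right _ _))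

private theorem goodC_inf {I : Type 1} (K : K0 → Set I) (hs : ∀ i, Small.{0} (K i)) (a : K0) :
    Cardinal.aleph0 ≤ goodC K hs a := (le_max_right _ _).trans (le_max_right _ _)

theorem exists_good {I : Type 1} (K : K0 → Set I) (hs : ∀ i, Small.{0} (K i))
    (hm : ∀ i j, i ≤ j → K i ⊆ K j)
    (hc : ∀ i, Order.IsSuccLimit i → ∀ x ∈ K i, ∃ j < i, x ∈ K j) (j : K0) :
    ∃ i, j < i ∧ Order.IsSuccLimit i ∧ (∀ a < i, ∀ b < i, a + b < i) ∧
      ∃ f : I → K0, InjOn f (K i) ∧ ∀ x ∈ K i, f x < i := by
  classical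
  set m := goodM K hs j with hmdef
  set μ : Cardinal.{0} := ⨆ n, m n with hμ
  have hbdd : BddAbove (range m) := Cardinal.bddAbove_of_small
  have hle : ∀ n, m n ≤ μ := fun n => le_ciSup hbdd n
  have hinf : Cardinal.aleph0 ≤ μ := (goodC_inf K hs j).trans (hle 0)
  have hlim : Order.IsSuccLimit μ.ord := Cardinal.isSuccLimit_ord hinf
  refine ⟨μ.ord, ?_, hlim, ?_, ?_⟩
  · rw [Cardinal.lt_ord]
    exact (goodC_card K hs j).trans_le (hle 0)
  · intro a ha b hb
    rw [Cardinal.lt_ord] at ha hb ⊢
    rw [Ordinal.card_add]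
    exact Cardinal.add_lt_of_lt hinf ha hb
  · have hsub : K μ.ord ⊆ ⋃ n, K (m n).ord := by
      intro x hx
      obtain ⟨k, hk, hxk⟩ := hc μ.ord hlim x hx
      rw [Cardinal.lt_ord] at hk
      obtain ⟨n, hn⟩ := exists_lt_of_lt_ciSup hk
      exact mem_iUnion.2 ⟨n, hm k _ (Cardinal.lt_ord.2 hn).le hxk⟩
    have hcard : Cardinal.mk (K μ.ord) ≤ Cardinal.mk (Iio μ.ord) := by
      rw [Cardinal.mk_Iio_ordinal, Cardinal.card_ord]
      refine (Cardinal.mk_le_mk_of_subset hsub).trans ?_
      have h1 : Cardinal.mk (⋃ n, K (m n).ord) ≤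
          Cardinal.sum fun n : ℕ => Cardinal.mk (K (m n).ord) := by
        have h2 := Cardinal.mk_iUnion_le_sum_mk_lift (f := fun n : ℕ => K (m n).ord)
        rwa [Cardinal.lift_id'.{0, 1}] at h2
      refine h1.trans ?_
      have h3 : ∀ n, Cardinal.mk (K (m n).ord) ≤ Cardinal.lift.{1} μ := fun n =>
        (goodC_mk K hs (m n).ord).le.trans (Cardinal.lift_le.2 (hle (n + 1)))
      refine (Cardinal.sum_le_sum _ _ h3).trans ?_
      rw [Cardinal.sum_const, Cardinal.mk_nat]
      have h4 : Cardinal.aleph0 ≤ Cardinal.lift.{1} μ := Cardinal.aleph0_le_lift.2 hinf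
      rw [Cardinal.lift_aleph0, Cardinal.lift_id'.{0, 1}]
      exact (Cardinal.mul_eq_right h4 h4 Cardinal.aleph0_ne_zero).le
    obtain ⟨g⟩ := Cardinal.le_def _ _ |>.1 hcard
    refine ⟨fun x => if h : x ∈ K μ.ord then (g ⟨x, h⟩).1 else 0, ?_, ?_⟩
    · intro x hx y hy hxy
      simp only [hx, hy, dif_pos] at hxy
      have := g.injective (Subtype.ext hxy)
      exact congrArg Subtype.val this
    · intro x hx
      simp only [hx, dif_pos]
      exact (g ⟨x, hx⟩).2

/-- A set of size less than `κ` does not contain the image of an injection of `κ`. -/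
theorem not_small_of_emb {I : Type 1} (e : K0 → I) (he : Function.Injective e) {N : Set I}
    (h : range e ⊆ N) : ¬ Small.{0} N := by
  intro hN
  have h1 : Small.{0} K0 := by
    refine small_of_injective (f := fun a : K0 => (⟨e a, h ⟨a, rfl⟩⟩ : N)) ?_
    intro a b hab
    exact he (congrArg Subtype.val hab)
  exact not_small_ordinal.{0, 0} h1

end Pool.Agent.CG3
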