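import Pool.Agent.Lib.MP_99c1f3_lc.CG.Q.Stage
import Pool.Agent.Lib.MP_99c1f3_lc.CG.Q.Bump
import Pool.Agent.Lib.MP_99c1f3_lc.CG.Q.Good

/-!
# CG3, block Q, module Chn: the properties of the chain of length `κ`, and the ladder at the top

PROOF of `Chn.lad`. Let `x ∈ (f j).A` and `x ∈ K i` (`abs`). Take `β := max i j`; let `ν > β`.
If `ν` is a successor, the value is `⊥` by `skip` (`ν ≠ 0`). Let `ν` be a limit, `u` in the value;
show `In u ν` by `in_closed`: given `α < ν`, w.l.o.g. `β ≤ α` (replace `α` by `max α β`), and `v ≤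
u`. The
clause `top` at `(f α).eta < (f ν).eta` gives `w ≤ v`, `ξ` with `(f α).eta < ξ < (f ν).eta`,
`w ∈ (f ν).D x ξ`. CLAIM: for all `ν' ≤ ν`, all `ξ` with `(f α).eta < ξ ≤ (f ν').eta` and all `w`
with
`w ∈ (f ν').D x ξ` there are `w' ≤ w` and `i'` with `α ≤ i' < ν'` and `In w' i'`. (Apply it with
`ν' < ν`, `ξ ≤ (f ν').eta` (`cont`) or with `ν' = ν`.) Induction on `ν'`; take the least `ν'' ≤ ν'`
with
`ξ ≤ (f ν'').eta`, the value at `ξ` is the same (`anti`, `x ∈ (f ν'').A` since `ν'' > α ≥ j`); if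
`ν'' < ν'` induction. If `ν'` is the least: it is `> α`. If `ν' = succ i'`: `(f i').eta < ξ`, so
`w ∈ eU i'` by `msk` (`x ∈ (f i').A`, `x ∈ K i'`, `i' ≥ α ≥ β`). If `ν'` is a limit: `ξ = (f
ν').eta` by `cont`
(otherwise `ξ ≤ (f j').eta` for some `j' < ν'`), so `top` at `(f α).eta` gives `w' ≤ w` and
`ξ' ∈ ((f α).eta, ξ)` with `w' ∈ (f ν').D x ξ'`; by `cont` `ξ' < (f ν'').eta` for some `ν'' < ν'`,
the value
is the same at `f ν''`; induction.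
`Chn.top_cond`: `lim_top` with `Chn.lad`.
-/

set_option autoImplicit false

namespace Pool.Agent.CG3

open Pool.Agent.Lib.SymModel Set

variable {I : Type 1}

/-- The properties of the chain of conditions `f i` and of the sets `K i` of coordinates. -/
structure Chn (s : K0 → Set (PC I)) (f₀ : QC I) (e : K0 → I) (f : K0 → QC I) (K : K0 → Set I) :
    Prop where
  base : f 0 ≤ f₀
  anti : ∀ j k, j ≤ k → f k ≤ f j
  mono : StrictMono fun j => (f j).1.eta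
  cont : ∀ i, Order.IsSuccLimit i → ∀ α < (f i).1.eta, ∃ j < i, α < (f j).1.eta
  top : ∀ i, Order.IsSuccLimit i → ∀ x, ∀ u ∈ (f i).1.D x (f i).1.eta, ∀ α < (f i).1.eta, ∀ v ≤ u,
    ∃ w ≤ v, ∃ β, α < β ∧ β < (f i).1.eta ∧ w ∈ (f i).1.D x β
  skip : ∀ i x, (f (Order.succ i)).1.D x (f (Order.succ i)).1.eta = ⊥
  msk : ∀ i, ∀ x ∈ (f i).1.A, x ∈ K i → ∀ ν, (f i).1.eta < ν → (f (Order.succ i)).1.D x ν ≤ eU i
  Kmono : ∀ i j, i ≤ j → K i ⊆ K j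
  emb : ∀ ν, ∃ i, e ν ∈ K i
  abs : ∀ j, ∀ x ∈ (f j).1.A, ∃ i, x ∈ K i
  item : ∀ t : TC I, (∃ i, t.s.X ⊆ K i) → ∀ β, ∃ t' ≤ t, (∃ i, t'.s.X ⊆ K i) ∧
    ∃ i, (⟨t', f i⟩ : PC I) ∈ s β

variable {s : K0 → Set (PC I)} {f₀ : QC I} {e : K0 → I} {f : K0 → QC I} {K : K0 → Set I}

/-- The claim in the proof of `Chn.lad`. -/
private theorem Chn.claim (h : Chn s f₀ e f K) {j i₀ a : K0} {x : I} (hx : x ∈ (f j).1.A)
    (hxK : x ∈ K i₀) (hj : j ≤ a) (hi : i₀ ≤ a) :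
    ∀ ν' : K0, ∀ ξ, (f a).1.eta < ξ → ξ ≤ (f ν').1.eta → ∀ w ∈ (f ν').1.D x ξ,
      ∃ w' ≤ w, ∃ i', a ≤ i' ∧ i' < ν' ∧ In w'.1 i' := by
  intro ν'
  induction ν' using WellFoundedLT.induction with
  | ind ν' ih =>
    intro ξ hξ1 hξ2 w hw
    have key : ∀ ν'' < ν', ∀ ξ', (f a).1.eta < ξ' → ξ' ≤ (f ν'').1.eta → ∀ w' ∈ (f ν').1.D x ξ',
        ∃ w'' ≤ w', ∃ i', a ≤ i' ∧ i' < ν' ∧ In w''.1 i' := by
      intro ν'' hν'' ξ' h1 h2 w' hw'
      have h3 : a < ν'' := h.mono.lt_iff_lt.1 (h1.trans_le h2)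
      have h4 : x ∈ (f ν'').1.A := (h.anti j ν'' (hj.trans h3.le)).1.A hx
      rw [(h.anti ν'' ν' hν''.le).2 x h4 ξ' h2] at hw'
      obtain ⟨w'', hw'', i', h5, h6, h7⟩ := ih ν'' hν'' ξ' h1 h2 w' hw'
      exact ⟨w'', hw'', i', h5, h6.trans hν'', h7⟩
    by_cases hA : ∃ ν'' < ν', ξ ≤ (f ν'').1.eta
    · obtain ⟨ν'', hν'', h1⟩ := hA
      exact key ν'' hν'' ξ hξ1 h1 w hw
    have hB : ∀ ν'' < ν', (f ν'').1.eta < ξ := fun ν'' hν'' =>
      not_le.1 fun h1 => hA ⟨ν'', hν'', h1⟩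
    have haν : a < ν' := h.mono.lt_iff_lt.1 (hξ1.trans_le hξ2)
    rcases Ordinal.zero_or_succ_or_isSuccLimit ν' with h0 | ⟨i', h0⟩ | h0
    · rw [h0] at haν
      exact absurd haν (not_lt.2 zero_le)
    · have h0' : Order.succ i' = ν' := h0
      have h1 : i' < ν' := h0' ▸ Order.lt_succ i'
      have h2 : a ≤ i' := Order.lt_succ_iff.1 (by rw [h0']; exact haν)
      have h3 : x ∈ (f i').1.A := (h.anti j i' (hj.trans h2)).1.A hx
      have h4 := h.msk i' x h3 (h.Kmono _ _ (hi.trans h2) hxK) ξ (hB i' h1)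
      rw [h0'] at h4
      exact ⟨w, le_rfl, i', h2, h1, h4 w hw⟩
    · have h1 : ξ = (f ν').1.eta := by
        refine le_antisymm hξ2 (not_lt.1 fun h2 => ?_)
        obtain ⟨j', hj', h3⟩ := h.cont ν' h0 ξ h2
        exact lt_asymm h3 (hB j' hj')
      rw [h1] at hw
      obtain ⟨w', hw', ξ', h2, h3, h4⟩ := h.top ν' h0 x w hw (f a).1.eta (h1 ▸ hξ1) w le_rfl
      obtain ⟨ν'', hν'', h5⟩ := h.cont ν' h0 ξ' h3
      obtain ⟨w'', hw'', i', h6, h7, h8⟩ := key ν'' hν'' ξ' h2 h5.le w' h4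
      exact ⟨w'', hw''.trans hw', i', h6, h7, h8⟩

theorem Chn.lad (h : Chn s f₀ e f K) (j : K0) (x : I) (hx : x ∈ (f j).1.A) :
    ∃ β, ∀ ν, β < ν → (f ν).1.D x (f ν).1.eta ≤ eU ν := by
  obtain ⟨i₀, hi₀⟩ := h.abs j x hx
  refine ⟨max i₀ j, fun ν hν => ?_⟩
  rcases Ordinal.zero_or_succ_or_isSuccLimit ν with h0 | ⟨i', h0⟩ | h0
  · rw [h0] at hν
    exact absurd hν (not_lt.2 zero_le)
  · have h0' : Order.succ i' = ν := h0
    rw [← h0', h.skip i' x]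
    exact bot_le
  · intro u hu
    refine in_closed u fun α hα v hv => ?_
    have h1 : max α (max i₀ j) < ν := max_lt hα hν
    have h2 : Order.succ (max α (max i₀ j)) < ν := h0.succ_lt h1
    have h3 : max α (max i₀ j) < Order.succ (max α (max i₀ j)) := Order.lt_succ _
    obtain ⟨w, hw, ξ, h4, h5, h6⟩ := h.top ν h0 x u hu _ (h.mono h2) v hv
    obtain ⟨w', hw', i', h7, h8, h9⟩ := Chn.claim h hx hi₀
      (((le_max_right i₀ j).trans (le_max_right α _)).trans h3.le)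
      (((le_max_left i₀ j).trans (le_max_right α _)).trans h3.le) ν ξ h4 h5.le w h6
    exact ⟨w', hw'.trans hw, i', ((le_max_left α _).trans_lt h3).trans_le h7, h8, h9⟩

theorem Chn.top_cond (h : Chn s f₀ e f K) : ∃ g : QC I, ∀ j, g ≤ f j :=
  lim_top f h.anti h.mono h.cont h.lad

end Pool.Agent.CG3
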