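import Pool.Agent.Lib.MP_99c1f3_lc.CG.Q.Defs
import Pool.Agent.Lib.MP_99c1f3_lc.CG.T.Top
import Pool.Agent.Lib.MP_99c1f3_lc.CG.T.Red
import Pool.Agent.Lib.MP_99c1f3_lc.CG.T.Cnt
import Pool.Agent.Lib.MP_99c1f3_lc.CG.T.CC
import Pool.Agent.Lib.MP_99c1f3_lc.CG.T.Proj
import Pool.Agent.Lib.MP_99c1f3_lc.CG.T.PropA

/-!
# CG3, block Q, module TNeed: what block Q uses of block T
-/

set_option autoImplicit false

namespace Pool.Agent.CG3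

open Pool.Agent.Lib.SymModel Set

variable {I : Type 1}

theorem tn_proj {t : TC I} {x : I} {w : UC} (h : w ≤ pr x t) : ∃ t' ≤ t, pr x t' ≤ w := by
  obtain ⟨t', h1, h2, _⟩ := proj h
  exact ⟨t', h1, h2⟩

theorem tn_top (t : TC I) {K : Set I} {i : K0} (hK : t.s.X ⊆ K)
    (ha : ∀ a < i, ∀ b < i, a + b < i) (hf : ∃ f : I → K0, InjOn f K ∧ ∀ x ∈ K, f x < i)
    (ht : t.Bd i) : ∃ t' ≤ t, ∀ t'' ≤ t', ∀ x ∈ K, In (pr x t'').1 i := by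
  obtain ⟨f, h1, h2⟩ := hf
  exact top t i K f h1 h2 ha hK ht

theorem tn_bd (t : TC I) : ∃ i, t.Bd i := by
  have hf : ((⋃ x ∈ t.y.a, Prod.snd '' t.y.u x) ∪ Prod.fst '' t.y.v ∪ {t.s.ε}).Finite :=
    ((t.hy.afin.biUnion fun x hx => (t.hy.u x hx).fin.image _).union
      (t.hy.v.fin.image _)).union (finite_singleton _)
  obtain ⟨b, hb⟩ := hf.bddAbove
  refine ⟨Order.succ b, ?_, ?_, ?_⟩
  · exact Order.lt_succ_of_le (hb (Or.inr rfl))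
  · intro x hx p hp
    exact Order.lt_succ_of_le (hb (Or.inl (Or.inl (mem_biUnion hx ⟨p, hp, rfl⟩))))
  · intro p hp
    exact Order.lt_succ_of_le (hb (Or.inl (Or.inr ⟨p, hp, rfl⟩)))

theorem tn_bd_mono {t : TC I} {i j : K0} (h : t.Bd i) (hij : i ≤ j) : t.Bd j :=
  ⟨h.ε.trans_le hij, fun x hx p hp => (h.u x hx p hp).trans_le hij,
    fun p hp => (h.v p hp).trans_le hij⟩

theorem tn_small {K : Set I} (hK : Small.{0} K) (i : K0) :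
    Small.{0} {t : TC I | t.s.X ⊆ K ∧ t.Bd i} := small_bd hK i

/-- The reduction to a set of coordinates which is not small. -/
theorem tn_red {N : Set I} (hN : ¬ Small.{0} N) (t : TC I) : ∃ r : TC I, r.s.X ⊆ N ∧
    ∀ t' ≤ r, t'.s.X ⊆ N → ∃ t'' ≤ t, t'' ≤ t' := by
  obtain ⟨σ, h1, h2⟩ := exists_red t hN
  exact ⟨t.perm σ, h1, h2⟩

/-- The `κ⁺`-chain condition of `T`. -/
theorem tn_cc {s : Set (TC I)} (hs : DnO s) :
    ∃ r : K0 → TC I, (∀ j, r j ∈ s) ∧ ∀ t, ∃ t' ≤ t, ∃ j, t' ≤ r j := by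
  classical
  obtain ⟨R, h1, ⟨f, hf⟩, h2⟩ := ccT s hs.2
  obtain ⟨t₀⟩ := nonempty_TC (I := I)
  obtain ⟨x₀, hx₀, _⟩ := h2 t₀
  refine ⟨fun j => if h : ∃ x ∈ R, f x = j then h.choose else x₀, fun j => ?_, fun t => ?_⟩
  · by_cases h : ∃ x ∈ R, f x = j
    · simp only
      rw [dif_pos h]
      exact h1 h.choose_spec.1
    · simp only
      rw [dif_neg h]
      exact h1 hx₀
  · obtain ⟨r, hr, q, hq1, hq2⟩ := h2 t
    refine ⟨q, hq1, f r, ?_⟩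
    have h : ∃ x ∈ R, f x = f r := ⟨r, hr, rfl⟩
    simp only
    rw [dif_pos h, hf h.choose_spec.1 hr h.choose_spec.2]
    exact hq2

/-- Lemma A. -/
theorem tn_lemA (s : ℕ → Set (TC I)) (hs : ∀ n, DnO (s n)) (t : TC I) :
    ∃ t' ≤ t, ∃ (J : Type) (r : J → TC I), ∀ n, ∀ q ≤ t', ∃ q' ≤ q, ∃ j, q' ≤ r j ∧ r j ∈ s n := by
  obtain ⟨t', ht', R, hR, h⟩ := lemmaA s (fun n t => (hs n).2 t)
    (fun n t t' h1 h2 => (hs n).1 t h1 t' h2) t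
  refine ⟨t', ht', Shrink.{0} R, fun j => ((equivShrink R).symm j).1, fun n q hq => ?_⟩
  obtain ⟨r, hr, h1, q', h2, h3⟩ := h n q hq
  refine ⟨q', h2, equivShrink R ⟨r, hr⟩, ?_⟩
  simp only [Equiv.symm_apply_apply]
  exact ⟨h3, h1⟩

theorem tn_mem (t : TC I) (x : I) (b : K0) : ∃ t' ≤ t, x ∈ t'.y.a ∧ b ≤ t'.s.ε := by
  obtain ⟨t₁, h1, h2⟩ := dens_a x t
  obtain ⟨t₂, h3, _, _, h4, _⟩ := ext_skl t₁ (Y := ∅) inferInstance b
  exact ⟨t₂, h3.trans h1, h3.2.a h2, h4⟩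

end Pool.Agent.CG3
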