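import Pool.Agent.Lib.MP_99c1f3_lc.CG.Q.Stage
import Pool.Agent.Lib.MP_99c1f3_lc.CG.Q.Bump
import Pool.Agent.Lib.MP_99c1f3_lc.CG.Q.TNeed

/-!
# CG3, block Q, module Succ: a successor step of the chain

PROOF of `succ_step`. Suppose first that the three conditions on `j` hold. For every `t` with
`t.s.X ⊆ K`, `t.Bd j` choose `a t ≤ t` by `tn_top` (with `∀ t'' ≤ a t, ∀ x ∈ K, In (pr x t'').1 j`). Let `Z`
be the set of the pairs `(a t, s β)` with `t.s.X ⊆ K`, `t.Bd j`, `β < j`: small (image of a product of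
small sets, `tn_small`, `small_Iio`). `stage` gives `g₀` with `MExt K j g₀ f` and for each such `t`, `β`
some `t' ≤ a t` with `(t', g₀) ∈ s β`; `Y` := the union of the sets `t'.s.X` (one `t'` for each pair):
small (`small_iUnion`/`small_biUnion`, `t'.hs.smX`). If the conditions fail take `g₀ := f`, `Y := ∅`.
Then `g` := `bump g₀` with `η > g₀.eta` (`L_noMax`), the same `A`, no new elements (`Y := ∅` there):
`(t', g) ≤ (t', g₀)` so `(t', g) ∈ s β` (`DnO` is open), `g.D x g.eta = ⊥`, `MExt K j g g₀` (new values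
`⊥`), `MExt.trans`.
-/

set_option autoImplicit false

namespace Pool.Agent.CG3

open Pool.Agent.Lib.SymModel Set

variable {I : Type 1}

theorem succ_step {s : K0 → Set (PC I)} (hs : ∀ β, DnO (s β)) {K : Set I} (hK : Small.{0} K)
    (j : K0) (f : QC I) : ∃ (g : QC I) (Y : Set I), MExt K j g f ∧ f.1.eta < g.1.eta ∧
      (∀ x, g.1.D x g.1.eta = ⊥) ∧ Small.{0} Y ∧
      (Order.IsSuccLimit j → (∀ a < j, ∀ b < j, a + b < j) →
        (∃ f : I → K0, InjOn f K ∧ ∀ x ∈ K, f x < j) → ∀ t : TC I, t.s.X ⊆ K → t.Bd j → ∀ β < j,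
        ∃ t' ≤ t, t'.s.X ⊆ Y ∧ (⟨t', g⟩ : PC I) ∈ s β) := by
  classical
  suffices H : ∃ (g : QC I) (Y : Set I), MExt K j g f ∧ Small.{0} Y ∧
      ((∀ a < j, ∀ b < j, a + b < j) →
        (∃ f : I → K0, InjOn f K ∧ ∀ x ∈ K, f x < j) → ∀ t : TC I, t.s.X ⊆ K → t.Bd j → ∀ β < j,
        ∃ t' ≤ t, t'.s.X ⊆ Y ∧ (⟨t', g⟩ : PC I) ∈ s β) by
    obtain ⟨g₀, Y, h1, h2, h3⟩ := H
    obtain ⟨η, hη⟩ := L_noMax g₀.1.eta
    obtain ⟨g, hg, e1, _, _, _, e5⟩ := bump g₀ hη (A := g₀.1.A) subset_rfl g₀.2.szA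
      (Y := ∅) (empty_subset _) ∅
    refine ⟨g, Y, MExt.trans ⟨hg, fun x _ _ ν hν => ?_⟩ h1, ?_, ?_, h2, ?_⟩
    · rw [e5 x ν hν (Or.inl (notMem_empty x))]
      exact bot_le
    · rw [e1]
      exact h1.1.1.eta.trans_lt hη
    · intro x
      exact e5 x _ (by rw [e1]; exact hη) (Or.inl (notMem_empty x))
    · intro _ ha hf t ht1 ht2 β hβ
      obtain ⟨t', ht', hY', hin⟩ := h3 ha hf t ht1 ht2 β hβ
      exact ⟨t', ht', hY', (hs β).1 _ hin ⟨t', g⟩ ⟨le_rfl, WLe.of_le hg⟩⟩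
  by_cases hgood : (∀ a < j, ∀ b < j, a + b < j) ∧ ∃ f : I → K0, InjOn f K ∧ ∀ x ∈ K, f x < j
  · obtain ⟨ha, hf⟩ := hgood
    have htop : ∀ t : {t : TC I | t.s.X ⊆ K ∧ t.Bd j}, ∃ t' ≤ t.1, ∀ t'' ≤ t', ∀ x ∈ K,
        In (pr x t'').1 j := fun t => tn_top t.1 t.2.1 ha hf t.2.2
    choose a ha1 ha2 using htop
    have hsm : Small.{0} {t : TC I | t.s.X ⊆ K ∧ t.Bd j} := tn_small hK j
    let F : {t : TC I | t.s.X ⊆ K ∧ t.Bd j} × Iio j → TC I × Set (PC I) :=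
      fun p => (a p.1, s p.2.1)
    have hZ : Small.{0} (range F) := small_range F
    obtain ⟨g, hg1, hg2⟩ := stage (K := K) (i := j) (Z := range F) hZ (by
      rintro _ ⟨p, rfl⟩
      exact ⟨ha2 p.1, hs _⟩) f
    have hg3 : ∀ p : {t : TC I | t.s.X ⊆ K ∧ t.Bd j} × Iio j, ∃ t' ≤ a p.1,
        (⟨t', g⟩ : PC I) ∈ s p.2.1 := fun p => hg2 (F p) ⟨p, rfl⟩
    choose b hb1 hb2 using hg3
    refine ⟨g, ⋃ p, (b p).s.X, hg1, ?_, ?_⟩
    · have : ∀ p, Small.{0} (b p).s.X := fun p => (b p).hs.smX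
      exact small_iUnion _
    · intro _ _ t ht1 ht2 β hβ
      exact ⟨b (⟨t, ht1, ht2⟩, ⟨β, hβ⟩), (hb1 _).trans (ha1 _),
        subset_iUnion (fun p => (b p).s.X) _, hb2 (⟨t, ht1, ht2⟩, ⟨β, hβ⟩)⟩
  · exact ⟨f, ∅, MExt.refl _ _ _, inferInstance, fun h1 h2 => (hgood ⟨h1, h2⟩).elim⟩

end Pool.Agent.CG3
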