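import Pool.Agent.Lib.MP_99c1f3_lc.CG.Q.Chn
import Pool.Agent.Lib.MP_99c1f3_lc.CG.Q.Succ

/-!
# CG3, block Q, module ChnEx: the chain of length `κ` exists

PROOF. For every condition `f` of the second step fix `c f : I → K0` injective on `f.A` (`szA`).
Apply `exists_hist` with `α := K0`, `S := QC I × Set I × Set I` and `R i s (g, K, Y)` the
conjunction of
 (a) `K = {x | ∃ j < i, x ∈ K_j ∨ x ∈ Y_j ∨ (x ∈ (f_j).A ∧ c f_j x < i) ∨ x = e j}`
   (`(f_j, K_j, Y_j)` is the value of `s` at `j`);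
 (b) `Small.{0} Y`;
 (c) if `i = 0`: `g ≤ f₀`;
 (d) if `i = Order.succ j`: `MExt K_j j g f_j`, `(f_j).eta < g.eta`, `∀ x, g.D x g.eta = ⊥`, and the
   last clause of `succ_step` for `K := K_j`, `j`, `g`, `Y`;
 (e) if `i` is a limit: `∀ j < i, g ≤ f_j`, `IsLUB ((fun j => (f_j).eta) '' Iio i) g.eta`,
   and the top clause of `lim_small`;
 (f) `∀ j < i, g ≤ f_j ∧ (f_j).eta < g.eta`.
Continuation: `K` is given by (a); it is small (a union of small sets indexed by the small set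
`Iio i`; `{x ∈ A | c x < i}` is small by injectivity into `Iio i`); all `K_j` are small by the same
argument. `i = 0`: `g := f₀`, `Y := ∅`. `i` a successor: `succ_step`, (f) from (d) and (f) at
`j`. `i` a limit: `lim_small`, `Y := ∅`; (f) for `j < i`: `(f_j).eta < (f_{j+1}).eta ≤ g.eta`. (For
`lim_small` extend `s` to all of `K0` by any value; e.g. first rewrite `s` as a total function
`fun j => if h : j < i then s j h else f₀`.)
Result: `f`, `K`, `Y`. `Kmono`, `emb` from (a); `cont`: (e) (a least upper bound which is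
not attained); `abs`: `x ∈ (f j).A`: `x ∈ K i` for `i > j`, `i > c (f j) x`; limit continuity of
`K`:
`x ∈ K i`, `i` limit, gives `j < i` with one of the four cases, so `x ∈ K i'` for some `i' < i`
(`i' := max (j+1) (c f_j x + 1)`).
`item`: given `t` with `t.s.X ⊆ K i₀` and `β`: let `t.Bd b` (`tn_bd`). `exists_good` gives
`i > max i₀ (max b β)` with its three conditions; clause (d) for `j := i`, `Order.succ i`: `t' ≤
t` with
`t'.s.X ⊆ Y (succ i) ⊆ K (i + 2)` and `(t', f (succ i)) ∈ s β`.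
-/

set_option autoImplicit false

namespace Pool.Agent.CG3

open Pool.Agent.Lib.SymModel Set

variable {I : Type 1}

/-- The set of coordinates of stage `i`. -/
private def chnK (c : QC I → I → K0) (e : K0 → I) (i : K0)
    (s : (j : K0) → j < i → QC I × Set I × Set I) : Set I :=
  {x | ∃ j, ∃ hj : j < i, x ∈ (s j hj).2.1 ∨ x ∈ (s j hj).2.2 ∨
    (x ∈ (s j hj).1.1.A ∧ c (s j hj).1 x < i) ∨ x = e j}

private theorem chnK_small {c : QC I → I → K0} (hc : ∀ f : QC I, InjOn (c f) f.1.A) (e : K0 → I)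
    (i : K0) (s : (j : K0) → j < i → QC I × Set I × Set I)
    (h1 : ∀ j hj, Small.{0} (s j hj).2.1) (h2 : ∀ j hj, Small.{0} (s j hj).2.2) :
    Small.{0} (chnK c e i s) := by
  have h3 : ∀ j : Iio i, Small.{0}
      ((s j.1 j.2).2.1 ∪ ((s j.1 j.2).2.2 ∪ ({x | x ∈ (s j.1 j.2).1.1.A ∧
        c (s j.1 j.2).1 x < i} ∪ {e j.1})) : Set I) := by
    intro j
    have := h1 j.1 j.2
    have := h2 j.1 j.2
    have : Small.{0} ({x | x ∈ (s j.1 j.2).1.1.A ∧ c (s j.1 j.2).1 x < i} : Set I) := by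
      refine small_of_injective
        (f := fun x : ({x | x ∈ (s j.1 j.2).1.1.A ∧ c (s j.1 j.2).1 x < i} : Set I) =>
          (⟨c (s j.1 j.2).1 x.1, x.2.2⟩ : Iio i)) ?_
      intro x y hxy
      exact Subtype.ext (hc _ x.2.1 y.2.1 (congrArg Subtype.val hxy))
    infer_instance
  have h4 : Small.{0} (⋃ j : Iio i, ((s j.1 j.2).2.1 ∪ ((s j.1 j.2).2.2 ∪
      ({x | x ∈ (s j.1 j.2).1.1.A ∧ c (s j.1 j.2).1 x < i} ∪ {e j.1})) : Set I)) :=
    small_iUnion _
  have h5 : chnK c e i s ⊆ ⋃ j : Iio i, ((s j.1 j.2).2.1 ∪ ((s j.1 j.2).2.2 ∪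
      ({x | x ∈ (s j.1 j.2).1.1.A ∧ c (s j.1 j.2).1 x < i} ∪ {e j.1})) : Set I) := by
    rintro x ⟨j, hj, h⟩
    refine mem_iUnion.2 ⟨⟨j, hj⟩, ?_⟩
    rcases h with h | h | h | h
    · exact Or.inl h
    · exact Or.inr (Or.inl h)
    · exact Or.inr (Or.inr (Or.inl h))
    · exact Or.inr (Or.inr (Or.inr h))
  exact small_subset h5

/-- The last clause of `succ_step`. -/
private def chnL (s : K0 → Set (PC I)) (K : Set I) (j : K0) (g : QC I) (Y : Set I) : Prop :=
  Order.IsSuccLimit j → (∀ a < j, ∀ b < j, a + b < j) →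
    (∃ f : I → K0, InjOn f K ∧ ∀ x ∈ K, f x < j) → ∀ t : TC I, t.s.X ⊆ K → t.Bd j → ∀ β < j,
    ∃ t' ≤ t, t'.s.X ⊆ Y ∧ (⟨t', g⟩ : PC I) ∈ s β

/-- The relation between the history and the next item. -/
private structure ChnR (s : K0 → Set (PC I)) (f₀ : QC I) (e : K0 → I) (c : QC I → I → K0)
    (i : K0) (w : (j : K0) → j < i → QC I × Set I × Set I) (v : QC I × Set I × Set I) : Prop where
  a : v.2.1 = chnK c e i w
  b : Small.{0} v.2.2
  c0 : i = 0 → v.1 ≤ f₀
  d : ∀ j, ∀ hj : j < i, i = Order.succ j → MExt (w j hj).2.1 j v.1 (w j hj).1 ∧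
    (∀ x, v.1.1.D x v.1.1.eta = ⊥) ∧ chnL s (w j hj).2.1 j v.1 v.2.2
  e : Order.IsSuccLimit i → (∀ α < v.1.1.eta, ∃ j, ∃ hj : j < i, α < (w j hj).1.1.eta) ∧
    ∀ x, ∀ u ∈ v.1.1.D x v.1.1.eta, ∀ α < v.1.1.eta, ∀ v' ≤ u,
      ∃ w' ≤ v', ∃ β, α < β ∧ β < v.1.1.eta ∧ w' ∈ v.1.1.D x β
  f : ∀ j, ∀ hj : j < i, v.1 ≤ (w j hj).1 ∧ (w j hj).1.1.eta < v.1.1.eta

private theorem chn_step {s : K0 → Set (PC I)} (hs : ∀ β, DnO (s β)) (f₀ : QC I) (e : K0 → I)
    {c : QC I → I → K0} (hc : ∀ f : QC I, InjOn (c f) f.1.A) (i : K0)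
    (w : (j : K0) → j < i → QC I × Set I × Set I)
    (hw : ∀ j (hj : j < i), ChnR s f₀ e c j (fun k hk => w k (hk.trans hj)) (w j hj)) :
    ∃ v, ChnR s f₀ e c i w v := by
  have hY : ∀ j hj, Small.{0} (w j hj).2.2 := fun j hj => (hw j hj).b
  have hK : ∀ j, ∀ hj : j < i, Small.{0} (w j hj).2.1 := by
    intro j
    induction j using WellFoundedLT.induction with
    | ind j ih =>
      intro hj
      rw [(hw j hj).a]
      exact chnK_small hc e j _ (fun k hk => ih k hk _) (fun k hk => hY k _)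
  rcases Ordinal.zero_or_succ_or_isSuccLimit i with h0 | ⟨j, h0⟩ | h0
  · subst h0
    refine ⟨(f₀, chnK c e 0 w, ∅), rfl, inferInstance, fun _ => le_rfl, fun j hj _ => ?_,
      fun h => absurd h Order.not_isSuccLimit_bot, fun j hj => ?_⟩
    · exact absurd hj (not_lt.2 zero_le)
    · exact absurd hj (not_lt.2 zero_le)
  · have h0' : Order.succ j = i := h0
    subst h0'
    have hj : j < Order.succ j := Order.lt_succ j
    obtain ⟨g, Y, h1, h2, h3, h4, h5⟩ := succ_step hs (hK j hj) j (w j hj).1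
    refine ⟨(g, chnK c e _ w, Y), rfl, h4, fun h => ?_, fun k hk h => ?_, fun h => ?_,
      fun k hk => ?_⟩
    · exact absurd h (Order.succ_ne_bot j)
    · have h6 : j = k := Order.succ_injective h
      subst h6
      exact ⟨h1, h3, h5⟩
    · exact absurd h (Order.not_isSuccLimit_succ j)
    · rcases (Order.lt_succ_iff.1 hk).lt_or_eq with h6 | h6
      · obtain ⟨h7, h8⟩ := (hw j hj).f k h6
        exact ⟨h1.1.trans h7, h8.trans h2⟩
      · subst h6
        exact ⟨h1.1, h2⟩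
  · classical
    have hi : 0 < i := lt_of_le_of_ne zero_le (fun h => by
      rw [← h] at h0
      exact Order.not_isSuccLimit_bot h0)
    let F : K0 → QC I := fun j => if h : j < i then (w j h).1 else f₀
    have hF : ∀ j, ∀ hj : j < i, F j = (w j hj).1 := fun j hj => dif_pos hj
    have hlt : ∀ j k, j < k → k < i → F k ≤ F j ∧ (F j).1.eta < (F k).1.eta := by
      intro j k hjk hk
      rw [hF j (hjk.trans hk), hF k hk]
      exact (hw k hk).f j hjk
    obtain ⟨g, h1, h2, -, h4⟩ := lim_small hi F (fun j k hjk hk => by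
      rcases hjk.lt_or_eq with h | h
      · exact (hlt j k h hk).1
      · rw [h])
    have h5 : ∀ j < i, (F j).1.eta < g.1.eta := by
      intro j hj
      have h6 : Order.succ j < i := h0.succ_lt hj
      refine (hlt j _ (Order.lt_succ j) h6).2.trans_le (h2.1 ⟨_, h6, rfl⟩)
    refine ⟨(g, chnK c e i w, ∅), rfl, inferInstance, fun h => ?_, fun k hk h => ?_, fun _ => ?_,
      fun k hk => ?_⟩
    · exact absurd h hi.ne'
    · rw [h] at h0
      exact absurd h0 (Order.not_isSuccLimit_succ k)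
    · refine ⟨fun α hα => ?_, h4 h5⟩
      obtain ⟨_, ⟨j, hj, rfl⟩, h⟩ := (lt_isLUB_iff h2).1 hα
      refine ⟨j, hj, ?_⟩
      rw [← hF j hj]
      exact h
    · rw [← hF k hk]
      exact ⟨h1 k hk, h5 k hk⟩

theorem exists_chn {s : K0 → Set (PC I)} (hs : ∀ β, DnO (s β)) (f₀ : QC I) (e : K0 → I) :
    ∃ (f : K0 → QC I) (K : K0 → Set I), Chn s f₀ e f K := by
  classical
  choose c hc using fun f : QC I => f.2.szA
  obtain ⟨S, hS⟩ := exists_hist (ChnR s f₀ e c) (chn_step hs f₀ e hc)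
  have hKs : ∀ i, Small.{0} (S i).2.1 := by
    intro i
    induction i using WellFoundedLT.induction with
    | ind i ih =>
      rw [(hS i).a]
      exact chnK_small hc e i _ (fun k hk => ih k hk) (fun k _ => (hS k).b)
  have hlt : ∀ j k, j < k → (S k).1 ≤ (S j).1 ∧ (S j).1.1.eta < (S k).1.1.eta := fun j k h =>
    (hS k).f j h
  have hK : ∀ j i, j < i → ∀ x, (x ∈ (S j).2.1 ∨ x ∈ (S j).2.2 ∨
      (x ∈ (S j).1.1.A ∧ c (S j).1 x < i) ∨ x = e j) → x ∈ (S i).2.1 := by
    intro j i hj x hx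
    rw [(hS i).a]
    exact ⟨j, hj, hx⟩
  have hKm : ∀ i j, i ≤ j → (S i).2.1 ⊆ (S j).2.1 := by
    intro i j hij
    rcases hij.lt_or_eq with h | h
    · exact fun x hx => hK i j h x (Or.inl hx)
    · rw [h]
  have hKc : ∀ i, Order.IsSuccLimit i → ∀ x ∈ (S i).2.1, ∃ j < i, x ∈ (S j).2.1 := by
    intro i hi x hx
    rw [(hS i).a] at hx
    obtain ⟨j, hj, h⟩ := hx
    have h1 : Order.succ j < i := hi.succ_lt hj
    rcases h with h | h | h | h
    · exact ⟨j, hj, h⟩
    · exact ⟨_, h1, hK j _ (Order.lt_succ j) x (Or.inr (Or.inl h))⟩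
    · have h2 : max j (c (S j).1 x) < i := max_lt hj h.2
      refine ⟨_, hi.succ_lt h2, hK j _ ?_ x (Or.inr (Or.inr (Or.inl ⟨h.1, ?_⟩)))⟩
      · exact (le_max_left _ _).trans_lt (Order.lt_succ _)
      · exact (le_max_right _ _).trans_lt (Order.lt_succ _)
    · exact ⟨_, h1, hK j _ (Order.lt_succ j) x (Or.inr (Or.inr (Or.inr h)))⟩
  refine ⟨fun i => (S i).1, fun i => (S i).2.1, ?_⟩
  refine
    { base := (hS 0).c0 rfl
      anti := fun j k hjk => ?_
      mono := fun j k hjk => (hlt j k hjk).2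
      cont := fun i hi α hα => ?_
      top := fun i hi => ((hS i).e hi).2
      skip := fun i x => ((hS (Order.succ i)).d i (Order.lt_succ i) rfl).2.1 x
      msk := fun i x hx hxK ν hν =>
        ((hS (Order.succ i)).d i (Order.lt_succ i) rfl).1.2 x hx hxK ν hν
      Kmono := hKm
      emb := fun ν => ⟨_, hK ν _ (Order.lt_succ ν) _ (Or.inr (Or.inr (Or.inr rfl)))⟩
      abs := fun j x hx => ?_
      item := fun t ht β => ?_ }
  · rcases hjk.lt_or_eq with h | h
    · exact (hlt j k h).1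
    · rw [h]
  · obtain ⟨j, hj, h⟩ := ((hS i).e hi).1 α hα
    exact ⟨j, hj, h⟩
  · refine ⟨Order.succ (max j (c (S j).1 x)), hK j _ ?_ x (Or.inr (Or.inr (Or.inl ⟨hx, ?_⟩)))⟩
    · exact (le_max_left _ _).trans_lt (Order.lt_succ _)
    · exact (le_max_right _ _).trans_lt (Order.lt_succ _)
  · obtain ⟨i₀, hi₀⟩ := ht
    obtain ⟨b, hb⟩ := tn_bd t
    obtain ⟨i, h1, h2, h3, h4⟩ := exists_good (fun i => (S i).2.1) hKs hKm hKc
      (max i₀ (max b β))
    have h5 : i₀ ≤ i := (le_max_left _ _).trans h1.le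
    have h6 : b ≤ i := ((le_max_left _ _).trans (le_max_right _ _)).trans h1.le
    have h7 : β < i := ((le_max_right _ _).trans (le_max_right _ _)).trans_lt h1
    obtain ⟨t', h8, h9, h10⟩ := ((hS (Order.succ i)).d i (Order.lt_succ i) rfl).2.2 h2 h3 h4 t
      (hi₀.trans (hKm i₀ i h5)) (tn_bd_mono hb h6) β h7
    refine ⟨t', h8, ⟨Order.succ (Order.succ i), fun x hx => ?_⟩, Order.succ i, h10⟩
    exact hK (Order.succ i) _ (Order.lt_succ _) x (Or.inr (Or.inl (h9 hx)))

end Pool.Agent.CG3
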