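import Pool.Agent.Lib.MP_99c1f3_lc.CG.Q.Defs

/-!
# CG3, block Q, module EUc: the generic club is closed
-/

set_option autoImplicit false

namespace Pool.Agent.CG3

open Pool.Agent.Lib.SymModel Set

theorem not_in_out {u : UC} {ν : K0} (h1 : In u.1 ν) (h2 : Out u.1 ν) : False := by
  obtain ⟨q, hq, h3⟩ := h1
  obtain ⟨p, hp, h4, h5⟩ := h2
  have h6 := u.2.sep p hp q hq (h3 ▸ h4)
  rw [h3] at h6
  exact absurd h5 (not_le.2 h6)

theorem in_closed (u : UC) {ν : K0} (h : ∀ α < ν, ∀ v ≤ u, ∃ w ≤ v, ∃ β, α < β ∧ β < ν ∧ In w.1 β) :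
    In u.1 ν := by
  by_contra hc
  obtain ⟨v, hv, p, hp, h1, h2⟩ := exists_outU hc
  obtain ⟨w, hw, β, h3, h4, h5⟩ := h p.1 h1 v hv
  obtain ⟨q, hq, h6, h7⟩ := hw p hp
  exact not_in_out h5 ⟨q, hq, by rw [h6]; exact h3, (h4.le.trans h2).trans h7⟩

end Pool.Agent.CG3
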