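import Mathlib

/-!
# CG3, block Q, module Hist: recursion along a well-order with a relation
-/

set_option autoImplicit false

namespace Pool.Agent.CG3

universe u v

/-- Dependent choice along a well-order: if every good sequence of length `i` can be continued,
there is a good sequence. -/
theorem exists_hist {α : Type u} [LinearOrder α] [WellFoundedLT α] {S : Type v}
    (R : (i : α) → ((j : α) → j < i → S) → S → Prop)
    (h : ∀ i (s : (j : α) → j < i → S),
      (∀ j (hj : j < i), R j (fun k hk => s k (hk.trans hj)) (s j hj)) → ∃ x, R i s x) :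
    ∃ s : α → S, ∀ i, R i (fun j _ => s j) (s i) := by
  classical
  rcases isEmpty_or_nonempty α with hα | hα
  · exact ⟨fun i => (hα.false i).elim, fun i => (hα.false i).elim⟩
  obtain ⟨i₀, hi₀⟩ : ∃ i₀ : α, ∀ j, ¬ j < i₀ := by
    obtain ⟨m, _, hm⟩ := (wellFounded_lt (α := α)).has_min Set.univ ⟨hα.some, trivial⟩
    exact ⟨m, fun j => hm j trivial⟩
  obtain ⟨x₀, _⟩ := h i₀ (fun j hj => (hi₀ j hj).elim) (fun j hj => (hi₀ j hj).elim)
  let F : (i : α) → ((j : α) → j < i → S) → S := fun i s =>
    if hx : ∃ x, R i s x then hx.choose else x₀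
  let s : α → S := (wellFounded_lt (α := α)).fix F
  have hs : ∀ i, s i = F i (fun j _ => s j) := fun i => WellFounded.fix_eq _ _ _
  refine ⟨s, fun i => ?_⟩
  induction i using WellFoundedLT.induction with
  | ind i ih =>
    have h1 : ∃ x, R i (fun j _ => s j) x := h i _ fun j hj => ih j hj
    rw [hs i]
    simp only [F]
    rw [dif_pos h1]
    exact h1.choose_spec

end Pool.Agent.CG3
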