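import Pool.Agent.Lib.MP_99c1f3_lc.CG.Iface

/-!
# CG3, block Q, module LCof: cofinalities in `L = κ⁺`

`L` is the well-ordered type of the cardinal `κ⁺`, `κ = #K0`; `K0 = Ordinal.{0}`.

PROOFS. `lub_exists`: the range of `s` has at most `κ` elements, and every subset of `L` of size
`≤ κ < κ⁺ = cof` is bounded (`κ⁺` is regular; `Cardinal.isRegular_succ`, `Ordinal.cof`,
`Cardinal.mk_ord_toType`; or: a family of `≤ κ` initial segments, each of size `≤ κ`, does not cover
`L`); take the least upper bound (well-foundedness). If `J` is empty the least element of `L`.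
`not_lad_of_small`: if `l` is a ladder of `η` and `s : J → L` is cofinal in `η`, `J` small, choose
`ν j` with `s j < l (ν j)`; the ordinals `ν j` are bounded in `K0 = Ordinal.{0}`
(`Ordinal.bddAbove_of_small` or `bddAbove_range`), by `ν`; `l (ν+1) < η` is above all `s j`:
contradiction.
`lad_or_small`: `Iio d` has size `≤ κ`. Suppose that `d` is a limit and there is no small cofinal
family. Fix an injection `e : Iio d → K0` (or a surjection `K0 → Iio d`). Define `l : K0 → L` by
recursion: `l ν` = the least element of `Iio d` which is `> l ν'` for all `ν' < ν` and, if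
`ν = ν' + 1`, also `> e⁻¹(ν')` (when defined), and for limit `ν` exactly the supremum of the `l ν'`
(it is `< d` since `Iio ν` is small). It is strictly increasing, continuous, cofinal.
-/

set_option autoImplicit false

namespace Pool.Agent.CG3

open Set

theorem lcof_aleph0_le : Cardinal.aleph0 ≤ kap := by
  rw [kap, Cardinal.aleph0_le_mk_iff]
  infer_instance

theorem lcof_mk_L : Cardinal.mk L = Order.succ kap := Cardinal.mk_ord_toType _

/-- `L` has no largest element. -/
theorem L_noMax (α : L) : ∃ β, α < β := by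
  have h : NoMaxOrder L :=
    Cardinal.noMaxOrder (lcof_aleph0_le.trans (Order.le_succ kap))
  exact exists_gt α

theorem szK_Iio (d : L) : ∃ f : L → K0, InjOn f (Iio d) := by
  classical
  have h1 : Cardinal.mk (Iio d) ≤ Cardinal.mk K0 := by
    have h2 := Cardinal.mk_Iio_lt d (by rw [Cardinal.mk_ord_toType, Ordinal.type_toType])
    rw [Cardinal.mk_ord_toType] at h2
    exact Order.lt_succ_iff.1 h2
  obtain ⟨g⟩ := (Cardinal.le_def _ _).1 h1
  refine ⟨fun x => if h : x < d then g ⟨x, h⟩ else 0, fun x hx y hy hxy => ?_⟩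
  have hx' : x < d := hx
  have hy' : y < d := hy
  simp only [hx', hy', dif_pos] at hxy
  have := g.injective hxy
  exact congrArg Subtype.val this

theorem lcof_bdd {J : Type 1} (hJ : ∃ f : J → K0, Function.Injective f) (s : J → L) :
    ∃ b, ∀ j, s j ≤ b := by
  classical
  by_contra hcon
  push Not at hcon
  obtain ⟨f, hf⟩ := hJ
  choose j hj using hcon
  choose d hd using L_noMax
  choose g hg using szK_Iio
  have hinj : Function.Injective (fun x : L => (f (j x), g (d (s (j x))) x)) := by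
    intro x y hxy
    simp only [Prod.mk.injEq] at hxy
    obtain ⟨h1, h2⟩ := hxy
    have h3 : j x = j y := hf h1
    rw [← h3] at h2
    refine hg (d (s (j x))) ?_ ?_ h2
    · exact lt_trans (hj x) (hd _)
    · show y < d (s (j x))
      rw [h3]
      exact lt_trans (hj y) (hd _)
  have h1 : Cardinal.mk L ≤ kap * kap := by
    have := Cardinal.mk_le_of_injective hinj
    rwa [Cardinal.mk_prod, Cardinal.lift_id] at this
  rw [Cardinal.mul_eq_self lcof_aleph0_le, lcof_mk_L] at h1
  exact absurd (Order.lt_succ kap) (not_lt.2 h1)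

theorem lub_exists {J : Type 1} (hJ : ∃ f : J → K0, Function.Injective f) (s : J → L) :
    ∃ η, IsLUB (range s) η := by
  obtain ⟨b, hb⟩ := lcof_bdd hJ s
  have hne : (upperBounds (range s)).Nonempty := by
    refine ⟨b, ?_⟩
    rintro _ ⟨j, rfl⟩
    exact hb j
  refine ⟨(wellFounded_lt (α := L)).min (upperBounds (range s)) hne, ?_, ?_⟩
  · exact WellFounded.min_mem _ _ _
  · intro x hx
    exact not_lt.1 (WellFounded.not_lt_min _ _ hx)

theorem not_lad_of_small {J : Type 1} [Small.{0} J] (s : J → L) {η : L} (h1 : ∀ j, s j < η)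
    (h2 : ∀ α < η, ∃ j, α ≤ s j) : ¬ ∃ l, IsLad η l := by
  rintro ⟨l, hl⟩
  choose ν hν using fun j => hl.cof (s j) (h1 j)
  obtain ⟨b, hb⟩ : BddAbove (range ν) := by
    have : Small.{0} (range ν) := small_range ν
    exact Ordinal.bddAbove_of_small
  obtain ⟨j, hj⟩ := h2 (l b) (hl.lt b)
  have h3 : ν j ≤ b := hb ⟨j, rfl⟩
  have h4 : l (ν j) ≤ l b := hl.mono.monotone h3
  exact absurd (hj.trans_lt (hν j)) (not_lt.2 h4)

theorem lad_or_small (d : L) (hd : ∀ α < d, ∃ β < d, α < β) :
    (∃ l, IsLad d l) ∨ ∃ (J : Type) (s : J → L), (∀ j, s j < d) ∧ ∀ α < d, ∃ j, α < s j := by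
  classical
  by_cases hN : ∃ (J : Type) (s : J → L), (∀ j, s j < d) ∧ ∀ α < d, ∃ j, α < s j
  · exact Or.inr hN
  left
  push Not at hN
  have hN' : ∀ (J : Type) (s : J → L), (∀ j, s j < d) → ∃ β < d, ∀ j, s j < β := by
    intro J s hs
    obtain ⟨α, hα, h⟩ := hN J s hs
    obtain ⟨β, hβ, hαβ⟩ := hd α hα
    exact ⟨β, hβ, fun j => (h j).trans_lt hαβ⟩
  obtain ⟨x0, hx0, -⟩ := hN' Empty (fun j => j.elim) (fun j => j.elim)
  obtain ⟨e, he⟩ := szK_Iio d
  obtain ⟨Q, hQ⟩ : ∃ Q : (ν : K0) → ((ν' : K0) → ν' < ν → L) → Set L,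
    Q = fun ν g => {x | (∀ ν' (h' : ν' < ν), g ν' h' < x) ∧
      ∀ y < d, Order.succ (e y) = ν → y < x} := ⟨_, rfl⟩
  obtain ⟨F, hF⟩ : ∃ F : (ν : K0) → ((ν' : K0) → ν' < ν → L) → L,
    F = fun ν g => if h : (Q ν g).Nonempty then (wellFounded_lt (α := L)).min (Q ν g) h else d :=
    ⟨_, rfl⟩
  obtain ⟨l, hl⟩ : ∃ l : K0 → L, ∀ ν, l ν = F ν (fun ν' _ => l ν') :=
    ⟨(wellFounded_lt (α := K0)).fix F, fun ν => WellFounded.fix_eq _ _ _⟩
  have hlt : ∀ ν, l ν < d ∧ l ν ∈ Q ν (fun ν' _ => l ν') ∧
      ∀ x ∈ Q ν (fun ν' _ => l ν'), l ν ≤ x := by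
    intro ν
    induction ν using WellFoundedLT.induction with
    | ind ν ih =>
      obtain ⟨y0, hy0, hy0'⟩ : ∃ y0 < d, ∀ y < d, Order.succ (e y) = ν → y = y0 := by
        by_cases h : ∃ y < d, Order.succ (e y) = ν
        · obtain ⟨y, hy, hy'⟩ := h
          refine ⟨y, hy, fun z hz hz' => ?_⟩
          refine he hz hy ?_
          rw [← hy'] at hz'
          exact Order.succ_injective hz'
        · exact ⟨x0, hx0, fun y hy hy' => (h ⟨y, hy, hy'⟩).elim⟩
      obtain ⟨β, hβ, hβ'⟩ := hN' (Option ν.ToType)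
        (fun o => o.elim y0 (fun t => l (Ordinal.ToType.mk.symm t).1)) (by
          intro o
          cases o with
          | none => exact hy0
          | some t => exact (ih _ (Ordinal.ToType.mk.symm t).2).1)
      have hmem : β ∈ Q ν (fun ν' _ => l ν') := by
        rw [hQ]
        refine ⟨fun ν' h' => ?_, fun y hy hy' => ?_⟩
        · have := hβ' (some (Ordinal.ToType.mk ⟨ν', h'⟩))
          simpa using this
        · rw [hy0' y hy hy']
          exact hβ' none
      have hne : (Q ν (fun ν' _ => l ν')).Nonempty := ⟨β, hmem⟩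
      have hlν : l ν = (wellFounded_lt (α := L)).min (Q ν (fun ν' _ => l ν')) hne := by
        rw [hl ν, hF]
        simp only [hne, dif_pos]
      have hle : ∀ x ∈ Q ν (fun ν' _ => l ν'), l ν ≤ x := by
        intro x hx
        rw [hlν]
        exact not_lt.1 (WellFounded.not_lt_min _ _ hx)
      refine ⟨(hle β hmem).trans_lt hβ, ?_, hle⟩
      rw [hlν]
      exact WellFounded.min_mem _ _ _
  have hmem : ∀ ν, (∀ ν' < ν, l ν' < l ν) ∧ ∀ y < d, Order.succ (e y) = ν → y < l ν := by
    intro ν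
    have := (hlt ν).2.1
    rw [hQ] at this
    exact this
  have hmono : StrictMono l := fun a b hab => (hmem b).1 a hab
  refine ⟨l, hmono, fun ν => (hlt ν).1, fun α hα => ⟨Order.succ (e α), (hmem _).2 α hα rfl⟩, ?_⟩
  intro ν hν α hα
  by_contra hcon
  push Not at hcon
  have h1 : α ∈ Q ν (fun ν' _ => l ν') := by
    rw [hQ]
    refine ⟨fun ν' h' => ?_, fun y _ hy' => ?_⟩
    · have h2 : Order.succ ν' < ν := hν.succ_lt h'
      exact (hmono (Order.lt_succ ν')).trans_le (hcon _ h2)
    · exact absurd hy' (by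
        intro h
        exact absurd (hν.succ_lt (h ▸ Order.lt_succ (e y))) (by rw [h]; exact lt_irrefl _))
  exact absurd hα (not_lt.2 ((hlt ν).2.2 α h1))

end Pool.Agent.CG3
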