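import Pool.Agent.Lib.MP_99c1f3_lc.CG.Q.ChnEx

/-!
# CG3, block Q, module LemD: Lemma D and its consequences

PROOFS. `lemD`: `exists_chn`, `Chn.top_cond`: `g ≤ f j` for all `j`, `g ≤ f₀`. `N := ⋃ i, K i`
contains the range of `e`, so it is not small (`not_small_of_emb`). Given `t`, `β`: `tn_red` gives `r`
with `r.s.X ⊆ N`; `r.s.X` is small (`r.hs.smX`) so it is included in some `K i` (`K` increasing,
small sets of ordinals in `K0` are bounded: `Ordinal.bddAbove_of_small`/`bddAbove_range`). `item`: `r' ≤ r`,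
`r'.s.X ⊆ K i ⊆ N`, `(r', f i) ∈ s β`, so `(r', g) ∈ s β` (`g ≤ f i`, `WLe.of_le`). The reduction: `t' ≤ t`,
`t' ≤ r'`; `(t', g) ≤ (r', g)`, so `(t', g) ∈ s β`.
`PC.le_of`: `(t'', f') ≤ (r, f)` if `t'' ≤ r`, `t'' ≤ t'`, `(t', f') ≤ (t, f)`: `WLe t' f' f` and
`WLe.mono`.
`propA`: apply `lemD` to `S β := s n` for `β = n : ℕ` (cast to `K0`), `S β := univ` for other `β`
(or: `S β := ⋂ of those n with (n : K0) = β`; casts are injective), `f₀ := p.f`: `g ≤ p.f`. For each `n`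
the set `{t | (t, g) ∈ s n}` is dense and open in `TC I`. `tn_lemA` at `p.t`: `t' ≤ p.t`, `J`, `r`. Put
`q := (t', g)`, `R j := (r j, g)`. For `q' ≤ q`: `q'.t ≤ t'`, so there are `u ≤ q'.t` and `j` with
`u ≤ r j`, `(r j, g) ∈ s n`; `(u, q'.f) ≤ q'` and `(u, q'.f) ≤ (r j, g)` by `PC.le_of`.
`propB`: the same with `tn_cc` for each `β` instead of `tn_lemA`: `r β : K0 → TC I`; enumerate
`K0 × K0` by `K0` (`#K0` is infinite, `Cardinal.mul_eq_self`, an equivalence).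
-/

set_option autoImplicit false

namespace Pool.Agent.CG3

open Pool.Agent.Lib.SymModel Set

variable {I : Type 1}

private theorem lemD_sub {X : Set I} (hX : Small.{0} X) {K : K0 → Set I}
    (hK : ∀ i j, i ≤ j → K i ⊆ K j) (h : X ⊆ ⋃ i, K i) : ∃ i, X ⊆ K i := by
  have h1 : ∀ x : X, ∃ i, x.1 ∈ K i := fun x => mem_iUnion.1 (h x.2)
  choose c hc using h1
  have h2 : BddAbove (range c) := Ordinal.bddAbove_of_small
  obtain ⟨b, hb⟩ := h2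
  exact ⟨b, fun x hx => hK _ _ (hb ⟨⟨x, hx⟩, rfl⟩) (hc ⟨x, hx⟩)⟩

theorem lemD {s : K0 → Set (PC I)} (hs : ∀ β, DnO (s β)) (f₀ : QC I) (e : K0 → I)
    (he : Function.Injective e) :
    ∃ g ≤ f₀, ∀ β, ∀ t : TC I, ∃ t' ≤ t, (⟨t', g⟩ : PC I) ∈ s β := by
  obtain ⟨f, K, hc⟩ := exists_chn hs f₀ e
  obtain ⟨g, hg⟩ := hc.top_cond
  refine ⟨g, (hg 0).trans hc.base, fun β t => ?_⟩
  have hN : ¬ Small.{0} (⋃ i, K i : Set I) :=
    not_small_of_emb e he (range_subset_iff.2 fun ν => mem_iUnion.2 (hc.emb ν))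
  obtain ⟨r, hr1, hr2⟩ := tn_red hN t
  obtain ⟨i, hi⟩ := lemD_sub r.hs.smX hc.Kmono hr1
  obtain ⟨r', h1, ⟨i', h2⟩, j, h3⟩ := hc.item r ⟨i, hi⟩ β
  obtain ⟨t'', h4, h5⟩ := hr2 r' h1 (h2.trans (subset_iUnion K i'))
  exact ⟨t'', h4, (hs β).1 _ h3 _ ⟨h5, WLe.of_le (hg j)⟩⟩

theorem PC.le_of {t'' t' t r : TC I} {f' f : QC I} (h : (⟨t', f'⟩ : PC I) ≤ ⟨t, f⟩) (h1 : t'' ≤ t')
    (h2 : t'' ≤ r) : (⟨t'', f'⟩ : PC I) ≤ ⟨r, f⟩ := ⟨h2, h.2.mono h1⟩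

/-- The section of a dense open set. -/
private theorem lemD_sec {S : Set (PC I)} {g : QC I} (hS : DnO S)
    (h : ∀ t : TC I, ∃ t' ≤ t, (⟨t', g⟩ : PC I) ∈ S) : DnO {t : TC I | (⟨t, g⟩ : PC I) ∈ S} :=
  ⟨fun _ ht _ hq => hS.1 _ ht _ ⟨hq, WLe.refl _ _⟩, h⟩

theorem propA (e : K0 → I) (he : Function.Injective e) (s : ℕ → Set (PC I)) (hs : ∀ n, DnO (s n))
    (p : PC I) : ∃ q ≤ p, ∃ (J : Type) (r : J → PC I),
      ∀ n, ∀ q' ≤ q, ∃ t ≤ q', ∃ j, t ≤ r j ∧ r j ∈ s n := by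
  have hS : ∀ β : K0, DnO {q : PC I | ∀ n : ℕ, (n : K0) = β → q ∈ s n} := by
    intro β
    refine ⟨fun q hq q' hq' n hn => (hs n).1 _ (hq n hn) _ hq', fun q => ?_⟩
    by_cases h : ∃ n : ℕ, (n : K0) = β
    · obtain ⟨n, hn⟩ := h
      obtain ⟨q', hq', h1⟩ := (hs n).2 q
      refine ⟨q', hq', fun m hm => ?_⟩
      have h2 : m = n := Nat.cast_injective (R := K0) (hm.trans hn.symm)
      rw [h2]
      exact h1
    · exact ⟨q, le_rfl, fun m hm => absurd ⟨m, hm⟩ h⟩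
  obtain ⟨g, hg, h⟩ := lemD hS p.f e he
  obtain ⟨t', ht', J, r, h3⟩ := tn_lemA (fun n => {t : TC I | (⟨t, g⟩ : PC I) ∈ s n})
    (fun n => lemD_sec (hs n) fun t => by
      obtain ⟨t', h1, h2⟩ := h n t
      exact ⟨t', h1, h2 n rfl⟩) p.t
  refine ⟨⟨t', g⟩, ⟨ht', WLe.of_le hg⟩, J, fun j => ⟨r j, g⟩, fun n q' hq' => ?_⟩
  obtain ⟨u, hu, j, h4, h5⟩ := h3 n q'.t hq'.1
  exact ⟨⟨u, q'.f⟩, ⟨hu, WLe.refl _ _⟩, j, PC.le_of (t' := q'.t) (t := t') hq' hu h4, h5⟩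

theorem propB (e : K0 → I) (he : Function.Injective e) (s : K0 → Set (PC I))
    (hs : ∀ n, DnO (s n)) (p : PC I) : ∃ q ≤ p, ∃ (r : K0 → PC I),
      ∀ n, ∀ q' ≤ q, ∃ t ≤ q', ∃ j, t ≤ r j ∧ r j ∈ s n := by
  obtain ⟨g, hg, h⟩ := lemD hs p.f e he
  have h1 : ∀ β, ∃ r : K0 → TC I, (∀ j, (⟨r j, g⟩ : PC I) ∈ s β) ∧ ∀ t, ∃ t' ≤ t, ∃ j, t' ≤ r j :=
    fun β => tn_cc (lemD_sec (hs β) (h β))
  choose R hR1 hR2 using h1
  have h2 : Cardinal.mk (K0 × K0) = Cardinal.mk K0 := by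
    rw [Cardinal.mk_prod, Cardinal.lift_id]
    exact Cardinal.mul_eq_self (Cardinal.aleph0_le_mk _)
  obtain ⟨φ⟩ := Cardinal.eq.1 h2
  refine ⟨⟨p.t, g⟩, ⟨le_rfl, WLe.of_le hg⟩, fun k => ⟨R (φ.symm k).1 (φ.symm k).2, g⟩,
    fun n q' hq' => ?_⟩
  obtain ⟨u, hu, j, h4⟩ := hR2 n q'.t
  refine ⟨⟨u, q'.f⟩, ⟨hu, WLe.refl _ _⟩, φ (n, j), ?_, ?_⟩
  · simp only [Equiv.symm_apply_apply]
    exact PC.le_of (t' := q'.t) (t := p.t) hq' hu h4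
  · simp only [Equiv.symm_apply_apply]
    exact hR1 n j

end Pool.Agent.CG3
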