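import Pool.Agent.Lib.MP_99c1f3_lc.CG.Q.Defs

/-!
# CG3, block Q, module Mix: mixing of names

PROOFS. `mem_mixB_of_mem`, `mem_mixB_of_compl`, `exists_decU` (`c` or its complement is decided
densely): Boolean algebra, `RO.mem_sup`, `RO.mem_inf`, `RO.mem_compl`.
`exists_mix`: `g'` has `eta`, `lam`, `h`, `A` of `g`, and `D x ν = mixB (c x) (g.D x ν) (f.D x ν)` for
`x ∈ f.A`, `D x = g.D x` for `x ∉ f.A`. `IsQ`: `DJ`: for `x ∈ f.A`, `ν > g.eta ≥ f.eta` both values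
are `⊥`. `clo`, `lad`: strengthen `u` to `v` in `c x` or in its complement (`exists_decU`), there
`D x ν` is `g.D x ν` resp. `f.D x ν` for all `ν`, and this passes to stronger `w`; for
`clo` on the complement: if `γ ≤ f.eta` use `clo` of `f`; if `γ > f.eta` the hypothesis at
`α = f.eta` gives `β > f.eta` with `w ∈ f.D x β = ⊥`, contradiction; then conclude for `u` with
`RO.mem_of_dense`. `lad` on the complement: for `d ≤ f.eta` use `lad` of `f` (`g.lam d = f.lam d`);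
for `d > f.eta` take `β` with `f.eta < g.lam d β` (cofinality of the ladder), for `ν > β` the value
is `⊥`. `g' ≤ f`: for `ν ≤ f.eta`: `mixB (c x) (g.D x ν) (f.D x ν) = f.D x ν`: extensionality of `RO`
(`SetLike.ext` or `RO.ext`), by `mem_of_dense` and `exists_decU`, with `hc` on `c x`. Last clause: for
`ν > f.eta` the value on the complement is `f.D x ν = ⊥`.
`mask_step`: `hs` gives `(t, g₀) ≤ (a, f)` in `s`. Put `c x := b x ⊓ (if x ∈ K then eU i else ⊤)`,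
`b x` the regular set `{u | ∀ ν ≤ f.eta, ∀ v ≤ u, (v ∈ g₀.D x ν ↔ v ∈ f.D x ν)}` (regular by
`mem_of_dense`). Take `g` from `exists_mix`. `pr x t ∈ c x` for `x ∈ f.A` by `WLe t g₀ f` and `ha`. So
`WLe t g g₀`: for `x ∈ f.A`, `u ≤ pr x t`: `u ∈ c x`; for `x ∉ f.A` the names are equal. So
`(t, g) ≤ (t, g₀)` and `(t, g) ∈ s` (`hs.1`). `MExt`: last clause of `exists_mix`, `c x ≤ eU i` for `x ∈ K`.
-/

set_option autoImplicit false

namespace Pool.Agent.CG3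

open Pool.Agent.Lib.SymModel Set

/-- The mixture: `a` on `c`, `b` on the complement. -/
noncomputable def mixB (c a b : RO UC) : RO UC := (c ⊓ a) ⊔ (cᶜ ⊓ b)

theorem mem_mixB_of_mem {c a b : RO UC} {u : UC} (h : u ∈ c) : u ∈ mixB c a b ↔ u ∈ a := by
  constructor
  · intro hu
    refine a.mem_of_dense fun q hq => ?_
    obtain ⟨r, hr, h1 | h1⟩ := RO.mem_sup.1 hu q hq
    · exact ⟨r, hr, (RO.mem_inf.1 h1).2⟩
    · exact absurd (c.down h (hr.trans hq)) (RO.mem_compl.1 (RO.mem_inf.1 h1).1 r le_rfl)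
  · intro hu
    exact RO.mem_sup.2 fun q hq => ⟨q, le_rfl, Or.inl ⟨c.down h hq, a.down hu hq⟩⟩

theorem mem_mixB_of_compl {c a b : RO UC} {u : UC} (h : u ∈ cᶜ) : u ∈ mixB c a b ↔ u ∈ b := by
  constructor
  · intro hu
    refine b.mem_of_dense fun q hq => ?_
    obtain ⟨r, hr, h1 | h1⟩ := RO.mem_sup.1 hu q hq
    · exact absurd (RO.mem_inf.1 h1).1 (RO.mem_compl.1 h r (hr.trans hq))
    · exact ⟨r, hr, (RO.mem_inf.1 h1).2⟩
  · intro hu
    exact RO.mem_sup.2 fun q hq => ⟨q, le_rfl, Or.inr ⟨(cᶜ).down h hq, b.down hu hq⟩⟩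

theorem exists_decU (c : RO UC) (u : UC) : ∃ v ≤ u, v ∈ c ∨ v ∈ cᶜ := by
  by_cases h : ∃ v ≤ u, v ∈ c
  · obtain ⟨v, hv, h1⟩ := h
    exact ⟨v, hv, Or.inl h1⟩
  · refine ⟨u, le_rfl, Or.inr (RO.mem_compl.2 fun q hq h1 => h ⟨q, hq, h1⟩)⟩

theorem mix_bot (c : RO UC) : mixB c ⊥ ⊥ = ⊥ := by
  unfold mixB
  rw [inf_bot_eq, inf_bot_eq, sup_bot_eq]

theorem mix_le (c a : RO UC) : mixB c a ⊥ ≤ c := by
  unfold mixB
  rw [inf_bot_eq, sup_bot_eq]
  exact inf_le_left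

variable {I : Type 1}

theorem exists_mix {g f : QC I} (h : Ext g.1 f.1) (c : I → RO UC)
    (hc : ∀ x ∈ f.1.A, ∀ ν ≤ f.1.eta, ∀ u ∈ c x, (u ∈ g.1.D x ν ↔ u ∈ f.1.D x ν)) :
    ∃ g' : QC I, g' ≤ f ∧ Ext g'.1 g.1 ∧ g'.1.eta = g.1.eta ∧
      (∀ x ∈ f.1.A, ∀ ν, ∀ u ∈ c x, (u ∈ g'.1.D x ν ↔ u ∈ g.1.D x ν)) ∧
      (∀ x, x ∉ f.1.A → g'.1.D x = g.1.D x) ∧
      ∀ x ∈ f.1.A, ∀ ν, f.1.eta < ν → g'.1.D x ν ≤ c x := by
  classical
  obtain ⟨D', hD'⟩ : ∃ D' : I → L → RO UC, D' = fun x ν =>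
      if x ∈ f.1.A then mixB (c x) (g.1.D x ν) (f.1.D x ν) else g.1.D x ν := ⟨_, rfl⟩
  have hD1 : ∀ x ∈ f.1.A, ∀ ν, D' x ν = mixB (c x) (g.1.D x ν) (f.1.D x ν) := by
    intro x hx ν
    rw [hD']
    exact if_pos hx
  have hD2 : ∀ x, x ∉ f.1.A → ∀ ν, D' x ν = g.1.D x ν := by
    intro x hx ν
    rw [hD']
    exact if_neg hx
  have hD3 : ∀ x ∈ f.1.A, ∀ ν, ∀ u ∈ c x, (u ∈ D' x ν ↔ u ∈ g.1.D x ν) := by
    intro x hx ν u hu
    rw [hD1 x hx]
    exact mem_mixB_of_mem hu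
  have hD4 : ∀ x ∈ f.1.A, ∀ ν, ∀ u ∈ (c x)ᶜ, (u ∈ D' x ν ↔ u ∈ f.1.D x ν) := by
    intro x hx ν u hu
    rw [hD1 x hx]
    exact mem_mixB_of_compl hu
  have hf0 : ∀ x ν, f.1.eta < ν → ∀ u : UC, u ∉ f.1.D x ν := by
    intro x ν hν u hu
    rw [f.2.DJ x ν (Or.inr hν)] at hu
    exact RO.notMem_bot u hu
  have hQ : IsQ (⟨g.1.eta, g.1.lam, g.1.h, g.1.A, D'⟩ : QR I) := by
    refine ⟨g.2.szA, g.2.lamOk, g.2.lamJ, g.2.hJ, ?_, ?_, ?_⟩
    · intro x d hxd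
      by_cases hx : x ∈ f.1.A
      · have hd : g.1.eta < d := by
          rcases hxd with h1 | h1
          · exact absurd (h.A hx) h1
          · exact h1
        change D' x d = ⊥
        rw [hD1 x hx, g.2.DJ x d (Or.inr hd), f.2.DJ x d (Or.inr (h.eta.trans_lt hd)), mix_bot]
      · change D' x d = ⊥
        rw [hD2 x hx]
        exact g.2.DJ x d hxd
    · intro x hx γ hγ hα u H
      change u ∈ D' x γ
      change ∀ α < γ, ∀ v ≤ u, ∃ w ≤ v, ∃ β, α < β ∧ β < γ ∧ w ∈ D' x β at H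
      by_cases hxf : x ∈ f.1.A
      · refine (D' x γ).mem_of_dense fun q hq => ?_
        obtain ⟨r, hr, h1 | h1⟩ := exists_decU (c x) q
        · refine ⟨r, hr, (hD3 x hxf γ r h1).2 (g.2.clo x hx γ hγ hα r ?_)⟩
          intro α hα' v hv
          obtain ⟨w, hw, β, h2, h3, h4⟩ := H α hα' v (hv.trans (hr.trans hq))
          exact ⟨w, hw, β, h2, h3, (hD3 x hxf β w ((c x).down h1 (hw.trans hv))).1 h4⟩
        · refine ⟨r, hr, (hD4 x hxf γ r h1).2 ?_⟩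
          by_cases hγf : γ ≤ f.1.eta
          · refine f.2.clo x hxf γ hγf hα r ?_
            intro α hα' v hv
            obtain ⟨w, hw, β, h2, h3, h4⟩ := H α hα' v (hv.trans (hr.trans hq))
            exact ⟨w, hw, β, h2, h3, (hD4 x hxf β w ((c x)ᶜ.down h1 (hw.trans hv))).1 h4⟩
          · exfalso
            obtain ⟨w, hw, β, h2, _, h4⟩ := H f.1.eta (not_le.1 hγf) r (hr.trans hq)
            exact hf0 x β h2 w ((hD4 x hxf β w ((c x)ᶜ.down h1 hw)).1 h4)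
      · rw [hD2 x hxf]
        refine g.2.clo x hx γ hγ hα u ?_
        intro α hα' v hv
        obtain ⟨w, hw, β, h2, h3, h4⟩ := H α hα' v hv
        rw [hD2 x hxf] at h4
        exact ⟨w, hw, β, h2, h3, h4⟩
    · intro x hx d hd hl u
      change ∃ v ≤ u, ∃ β, ∀ ν, β < ν → ∀ w ≤ v, w ∈ D' x (g.1.lam d ν) → In w.1 ν
      by_cases hxf : x ∈ f.1.A
      · obtain ⟨r, hr, h1 | h1⟩ := exists_decU (c x) u
        · obtain ⟨v, hv, β, hβ⟩ := g.2.lad x hx d hd hl r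
          refine ⟨v, hv.trans hr, β, fun ν hν w hw hwD => hβ ν hν w hw ?_⟩
          exact (hD3 x hxf _ w ((c x).down h1 (hw.trans hv))).1 hwD
        · by_cases hdf : d ≤ f.1.eta
          · obtain ⟨v, hv, β, hβ⟩ := f.2.lad x hxf d hdf hl r
            refine ⟨v, hv.trans hr, β, fun ν hν w hw hwD => hβ ν hν w hw ?_⟩
            rw [← h.lam d hdf]
            exact (hD4 x hxf _ w ((c x)ᶜ.down h1 (hw.trans hv))).1 hwD
          · have hlad := g.2.lamOk d hd hl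
            obtain ⟨β, hβ⟩ := hlad.cof f.1.eta (not_le.1 hdf)
            refine ⟨r, hr, β, fun ν hν w hw hwD => ?_⟩
            exfalso
            exact hf0 x _ (hβ.trans (hlad.mono hν)) w
              ((hD4 x hxf _ w ((c x)ᶜ.down h1 hw)).1 hwD)
      · obtain ⟨v, hv, β, hβ⟩ := g.2.lad x hx d hd hl u
        refine ⟨v, hv, β, fun ν hν w hw hwD => hβ ν hν w hw ?_⟩
        rw [← hD2 x hxf]
        exact hwD
  refine ⟨⟨⟨g.1.eta, g.1.lam, g.1.h, g.1.A, D'⟩, hQ⟩, ⟨⟨h.eta, h.lam, h.h, h.A⟩, ?_⟩,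
    ⟨le_rfl, fun _ _ => rfl, fun _ _ => rfl, subset_rfl⟩, rfl, hD3, fun x hx => funext (hD2 x hx),
    ?_⟩
  · intro x hx ν hν
    change D' x ν = f.1.D x ν
    refine SetLike.ext fun u => ⟨fun hu => ?_, fun hu => ?_⟩
    · refine (f.1.D x ν).mem_of_dense fun q hq => ?_
      obtain ⟨r, hr, h1 | h1⟩ := exists_decU (c x) q
      · exact ⟨r, hr, (hc x hx ν hν r h1).1 ((hD3 x hx ν r h1).1
          ((D' x ν).down hu (hr.trans hq)))⟩
      · exact ⟨r, hr, (hD4 x hx ν r h1).1 ((D' x ν).down hu (hr.trans hq))⟩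
    · refine (D' x ν).mem_of_dense fun q hq => ?_
      have hq' := (f.1.D x ν).down hu hq
      obtain ⟨r, hr, h1 | h1⟩ := exists_decU (c x) q
      · exact ⟨r, hr, (hD3 x hx ν r h1).2 ((hc x hx ν hν r h1).2
          ((f.1.D x ν).down hq' hr))⟩
      · exact ⟨r, hr, (hD4 x hx ν r h1).2 ((f.1.D x ν).down hq' hr)⟩
  · intro x hx ν hν
    change D' x ν ≤ c x
    rw [hD1 x hx, f.2.DJ x ν (Or.inr hν)]
    exact mix_le _ _

theorem mask_step {K : Set I} {i : K0} {a : TC I} (ha : ∀ t ≤ a, ∀ x ∈ K, In (pr x t).1 i)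
    {s : Set (PC I)} (hs : DnO s) (f : QC I) :
    ∃ t ≤ a, ∃ g : QC I, MExt K i g f ∧ (⟨t, g⟩ : PC I) ∈ s := by
  classical
  obtain ⟨⟨t, g₀⟩, hle, hmem⟩ := hs.2 ⟨a, f⟩
  have hta : t ≤ a := hle.1
  have hW : WLe t g₀ f := hle.2
  obtain ⟨b, hb⟩ : ∃ b : I → RO UC, ∀ x u, u ∈ b x ↔
      ∀ ν ≤ f.1.eta, ∀ v ≤ u, (v ∈ g₀.1.D x ν ↔ v ∈ f.1.D x ν) := by
    refine ⟨fun x =>
      { carrier := {u | ∀ ν ≤ f.1.eta, ∀ v ≤ u, (v ∈ g₀.1.D x ν ↔ v ∈ f.1.D x ν)}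
        reg := fun u => ?_ }, fun x u => Iff.rfl⟩
    constructor
    · intro h q hq
      exact ⟨q, le_rfl, fun ν hν v hv => h ν hν v (hv.trans hq)⟩
    · intro h ν hν v hv
      constructor
      · intro hv1
        refine (f.1.D x ν).mem_of_dense fun q hq => ?_
        obtain ⟨r, hr, h1⟩ := h q (hq.trans hv)
        exact ⟨r, hr, (h1 ν hν r le_rfl).1 ((g₀.1.D x ν).down hv1 (hr.trans hq))⟩
      · intro hv1
        refine (g₀.1.D x ν).mem_of_dense fun q hq => ?_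
        obtain ⟨r, hr, h1⟩ := h q (hq.trans hv)
        exact ⟨r, hr, (h1 ν hν r le_rfl).2 ((f.1.D x ν).down hv1 (hr.trans hq))⟩
  obtain ⟨c, hc⟩ : ∃ c : I → RO UC, c = fun x => b x ⊓ (if x ∈ K then eU i else ⊤) := ⟨_, rfl⟩
  have hcb : ∀ x u, u ∈ c x → u ∈ b x := by
    intro x u hu
    rw [hc] at hu
    exact (RO.mem_inf.1 hu).1
  obtain ⟨g, h1, h2, _, h4, h5, h6⟩ := exists_mix (g := g₀) (f := f) hW.1 c
    (fun x _ ν hν u hu => (hb x u).1 (hcb x u hu) ν hν u le_rfl)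
  refine ⟨t, hta, g, ⟨h1, ?_⟩, ?_⟩
  · intro x hx hxK ν hν
    refine (h6 x hx ν hν).trans ?_
    rw [hc]
    simp only [if_pos hxK]
    exact inf_le_right
  · refine hs.1 _ hmem _ ⟨le_rfl, h2, ?_⟩
    intro x _ ν _ u hu
    by_cases hxf : x ∈ f.1.A
    · have hpr : pr x t ∈ c x := by
        rw [hc]
        refine RO.mem_inf.2 ⟨(hb x _).2 fun ν hν v hv => hW.2 x hxf ν hν v hv, ?_⟩
        by_cases hxK : x ∈ K
        · rw [if_pos hxK]
          exact mem_eU.2 (ha t hta x hxK)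
        · rw [if_neg hxK]
          exact RO.mem_top _
      exact h4 x hxf ν u ((c x).down hpr hu)
    · rw [h5 x hxf]

end Pool.Agent.CG3
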