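import Pool.Agent.Lib.MP_99c1f3_lc.CG.Q.Bump
import Pool.Agent.Lib.MP_99c1f3_lc.CG.T.Proj
import Pool.Agent.Lib.MP_99c1f3_lc.CG.T.SzC

/-!
# CG3, block Q, module StarP: the principle holds for `P₀`
-/

set_option autoImplicit false

namespace Pool.Agent.CG3

open Pool.Agent.Lib.SymModel Set

variable {I : Type 1}

/-- The projection property for `P₀`, with fixed second coordinate. -/
theorem exists_pr_le (x : I) (p : PC I) {v : UC} (hv : v ≤ pr x p.t) :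
    ∃ q ≤ p, q.f = p.f ∧ pr x q.t ≤ v := by
  obtain ⟨t', ht', h, _⟩ := proj hv
  exact ⟨⟨t', p.f⟩, ⟨ht', WLe.refl _ _⟩, rfl, h⟩

/-- The name of the club `e x`. -/
def eP (x : I) (ν : K0) : RO (PC I) where
  carrier := {p | In (pr x p.t).1 ν}
  reg p := by
    constructor
    · intro h q hq
      exact ⟨q, le_rfl, In.mono h (pr_mono x hq.1)⟩
    · intro h
      by_contra h1
      obtain ⟨v, hv, h2⟩ := exists_outU h1
      obtain ⟨q, hq, _, hqv⟩ := exists_pr_le x p hv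
      obtain ⟨r, hr, h3⟩ := h q hq
      have h4 : pr x r.t ≤ v := (pr_mono x hr.1).trans hqv
      have h5 : Out (pr x r.t).1 ν := h2.mono h4
      obtain ⟨a, ha, h6⟩ := h3
      obtain ⟨b, hb, h7, h8⟩ := h5
      have h9 := (pr x r.t).2.sep b hb a ha (h6 ▸ h7)
      rw [h6] at h9
      exact absurd h8 (not_le.2 h9)

theorem mem_eP {x : I} {ν : K0} {p : PC I} : p ∈ eP x ν ↔ In (pr x p.t).1 ν := Iff.rfl

/-- The base of the name of `γ ∈ D x`. -/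
def dB (x : I) (γ : L) : Set (PC I) := {p | x ∈ p.f.1.A ∧ γ ≤ p.f.1.eta ∧ pr x p.t ∈ p.f.1.D x γ}

theorem dB_down (x : I) (γ : L) : ∀ p ∈ dB x γ, ∀ q ≤ p, q ∈ dB x γ := by
  rintro p ⟨h1, h2, h3⟩ q hq
  refine ⟨hq.2.1.A h1, h2.trans hq.2.1.eta, ?_⟩
  exact (hq.2.2 x h1 γ h2 _ le_rfl).2 ((p.f.1.D x γ).down h3 (pr_mono x hq.1))

/-- The name of the club `D x`. -/
def dP (x : I) (γ : L) : RO (PC I) := RO.mkOf (dB x γ) (dB_down x γ)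

theorem mem_dP {x : I} {γ : L} {p : PC I} (hx : x ∈ p.f.1.A) (hγ : γ ≤ p.f.1.eta) :
    p ∈ dP x γ ↔ pr x p.t ∈ p.f.1.D x γ := by
  constructor
  · intro h
    refine (p.f.1.D x γ).mem_of_dense fun v hv => ?_
    obtain ⟨q, hq, _, hqv⟩ := exists_pr_le x p hv
    obtain ⟨r, hr, _, _, h3⟩ := RO.mem_mkOf.1 h q hq
    exact ⟨pr x r.t, (pr_mono x hr.1).trans hqv,
      ((hr.trans hq).2.2 x hx γ hγ _ le_rfl).1 h3⟩
  · intro h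
    exact RO.mem_mkOf.2 fun q hq => ⟨q, le_rfl, dB_down x γ p ⟨hx, hγ, h⟩ q hq⟩

theorem szK_insert {A : Set I} (h : SzK A) (x : I) : SzK (insert x A) := by
  have h1 : insert x A = {x} ∪ A := rfl
  rw [h1]
  refine SzK.union (SzK.of_small ?_) h
  exact small_single x

/-- A condition can be extended such that `x` is a coordinate and the height is at least `γ`. -/
theorem ext_xη (p : PC I) (x : I) (γ : L) :
    ∃ q ≤ p, q.t = p.t ∧ x ∈ q.f.1.A ∧ γ ≤ q.f.1.eta := by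
  obtain ⟨η, hη⟩ := L_noMax (max p.f.1.eta γ)
  obtain ⟨g, hg, h1, h2, _⟩ := bump p.f ((le_max_left _ _).trans_lt hη) (subset_insert x p.f.1.A)
    (szK_insert p.f.2.szA x) (Y := ∅) (empty_subset _) ∅
  refine ⟨⟨p.t, g⟩, ⟨le_rfl, WLe.of_le hg⟩, rfl, ?_, ?_⟩
  · change x ∈ g.1.A
    rw [h2]
    exact mem_insert _ _
  · change γ ≤ g.1.eta
    rw [h1]
    exact (le_max_right _ _).trans hη.le

theorem dP_unb (x : I) (α : L) (q : PC I) : ∃ r ≤ q, ∃ γ, α < γ ∧ r ∈ dP x γ := by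
  obtain ⟨η, hη⟩ := L_noMax (max q.f.1.eta α)
  obtain ⟨g, hg, h1, h2, _, h3, _⟩ := bump q.f ((le_max_left _ _).trans_lt hη)
    (subset_insert x q.f.1.A) (szK_insert q.f.2.szA x) (Y := {x})
    (singleton_subset_iff.2 (mem_insert _ _)) ∅
  refine ⟨⟨q.t, g⟩, ⟨le_rfl, WLe.of_le hg⟩, η, (le_max_right _ _).trans_lt hη, ?_⟩
  have hx : x ∈ g.1.A := by rw [h2]; exact mem_insert _ _
  refine (mem_dP (p := ⟨q.t, g⟩) hx h1.ge).2 ?_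
  change pr x q.t ∈ g.1.D x η
  rw [h3 x rfl]
  exact RO.mem_top _

theorem dP_clo (x : I) (γ : L) (hγ : ∃ α, α < γ) (q : PC I)
    (h : ∀ α < γ, ∀ q' ≤ q, ∃ r ≤ q', ∃ β, α < β ∧ β < γ ∧ r ∈ dP x β) : q ∈ dP x γ := by
  refine (dP x γ).mem_of_dense fun q1 hq1 => ?_
  obtain ⟨q2, hq2, _, hx, hη⟩ := ext_xη q1 x γ
  refine ⟨q2, hq2, (mem_dP hx hη).2 ?_⟩
  refine q2.f.2.clo x hx γ hη hγ _ fun α hα v hv => ?_
  obtain ⟨q3, hq3, _, hq3v⟩ := exists_pr_le x q2 hv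
  obtain ⟨r, hr, β, h1, h2, h3⟩ := h α hα q3 (hq3.trans (hq2.trans hq1))
  have hr2 : r ≤ q2 := hr.trans hq3
  have hxr : x ∈ r.f.1.A := hr2.2.1.A hx
  have hβ : β ≤ q2.f.1.eta := h2.le.trans hη
  have h4 := (mem_dP hxr (hβ.trans hr2.2.1.eta)).1 h3
  exact ⟨pr x r.t, (pr_mono x hr.1).trans hq3v, β, h1, h2, (hr2.2.2 x hx β hβ _ le_rfl).1 h4⟩

theorem star_lad (d : L) (hd : ∃ l, IsLad d l) (q : PC I) : ∃ r ≤ q, ∃ l, IsLad d l ∧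
    ∀ x : I, ∀ s ≤ r, ∃ t ≤ s, ∃ β, ∀ ν, β < ν → ∀ t' ≤ t, t' ∈ dP x (l ν) → t' ∈ eP x ν := by
  obtain ⟨η, hη⟩ := L_noMax (max q.f.1.eta d)
  obtain ⟨g, hg, h1, _⟩ := bump q.f ((le_max_left _ _).trans_lt hη) subset_rfl q.f.2.szA
    (Y := ∅) (empty_subset _) ∅
  have hdg : d ≤ g.1.eta := by rw [h1]; exact (le_max_right _ _).trans hη.le
  refine ⟨⟨q.t, g⟩, ⟨le_rfl, WLe.of_le hg⟩, g.1.lam d, g.2.lamOk d hdg hd, fun x s hs => ?_⟩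
  obtain ⟨s1, hs1, _, hx, _⟩ := ext_xη s x d
  have hsg : s1 ≤ ⟨q.t, g⟩ := hs1.trans hs
  have hlam : s1.f.1.lam d = g.1.lam d := hsg.2.1.lam d hdg
  have hd1 : d ≤ s1.f.1.eta := hdg.trans hsg.2.1.eta
  obtain ⟨v, hv, β, hβ⟩ := s1.f.2.lad x hx d hd1 hd (pr x s1.t)
  obtain ⟨t, ht, htf, htv⟩ := exists_pr_le x s1 hv
  refine ⟨t, ht.trans hs1, β, fun ν hν t' ht' h => ?_⟩
  have ht1 : t' ≤ s1 := ht'.trans ht
  have hl : IsLad d (g.1.lam d) := g.2.lamOk d hdg hd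
  have hν1 : g.1.lam d ν ≤ s1.f.1.eta := (hl.lt ν).le.trans hd1
  have h2 := (mem_dP (ht1.2.1.A hx) (hν1.trans ht1.2.1.eta)).1 h
  have h3 := (ht1.2.2 x hx _ hν1 _ le_rfl).1 h2
  rw [← hlam] at h3
  exact hβ ν hν (pr x t'.t) ((pr_mono x ht'.1).trans htv) h3

/-! ### The colouring -/

/-- A code of the subsets of `b`. -/
theorem exists_code (b : K0) : ∃ c : Set K0 → K0, InjOn c {Y | Y ⊆ Iio b} := by
  have h1 : Small.{0} {Y : Set K0 | Y ⊆ Iio b} := small_powerset inferInstance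
  exact SzK.of_small h1

/-- The base of the name of the colouring. -/
def cB (c : Set K0 → K0) (b : K0) (x : I) (ξ : K0) : Set (PC I) :=
  {p | x ∈ p.t.s.X ∧ b ≤ p.t.s.ε ∧ c (p.t.s.g x ∩ Iio b) = ξ}

theorem g_eq {p q : PC I} (h : q ≤ p) {x : I} {b : K0} (hx : x ∈ p.t.s.X) (hb : b ≤ p.t.s.ε) :
    q.t.s.g x ∩ Iio b = p.t.s.g x ∩ Iio b := by
  ext ν
  constructor
  · rintro ⟨h1, h2⟩
    exact ⟨(h.1.1.g x hx ν (lt_of_lt_of_le h2 hb)).1 h1, h2⟩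
  · rintro ⟨h1, h2⟩
    exact ⟨(h.1.1.g x hx ν (lt_of_lt_of_le h2 hb)).2 h1, h2⟩

theorem cB_down (c : Set K0 → K0) (b : K0) (x : I) (ξ : K0) :
    ∀ p ∈ cB c b x ξ, ∀ q ≤ p, q ∈ cB c b x ξ := by
  rintro p ⟨h1, h2, h3⟩ q hq
  exact ⟨hq.1.1.X h1, h2.trans hq.1.1.ε, by rw [g_eq hq h1 h2]; exact h3⟩

/-- The name of the colouring. -/
def cP (c : Set K0 → K0) (b : K0) (x : I) (ξ : K0) : RO (PC I) :=
  RO.mkOf (cB c b x ξ) (cB_down c b x ξ)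

theorem cP_uni (c : Set K0 → K0) (b : K0) (q : PC I) : FnlB q (cP c b) := by
  intro x ξ ξ' r _ h1 h2
  obtain ⟨r1, hr1, h3⟩ := RO.mem_mkOf.1 h1 r le_rfl
  obtain ⟨r2, hr2, h4⟩ := RO.mem_mkOf.1 ((cP c b x ξ').down h2 hr1) r1 le_rfl
  have h5 := cB_down c b x ξ r1 h3 r2 hr2
  exact h5.2.2.symm.trans h4.2.2

theorem cP_tot (c : Set K0 → K0) (b : K0) (q : PC I) (x : I) : ∃ r ≤ q, ∃ ξ, r ∈ cP c b x ξ := by
  obtain ⟨t', ht', _, h1, h2, _⟩ := ext_skl q.t (Y := {x}) (small_single x) b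
  refine ⟨⟨t', q.f⟩, ⟨ht', WLe.refl _ _⟩, c (t'.s.g x ∩ Iio b), ?_⟩
  exact RO.mem_mkOf.2 fun r hr => ⟨r, le_rfl,
    cB_down c b x _ ⟨t', q.f⟩ ⟨h1 rfl, h2, rfl⟩ r hr⟩

theorem cP_meet {c : Set K0 → K0} {b : K0} (hc : InjOn c {Y | Y ⊆ Iio b}) (q : PC I) {x y : I}
    {ξ : K0} (hxy : x ≠ y) (h1 : q ∈ cP c b x ξ) (h2 : q ∈ cP c b y ξ) :
    ∃ r ≤ q, (∀ γ, ¬ γ < b) ∨ ∃ γ < b, ∀ ν < b, γ < ν → ∀ s ≤ r, s ∈ eP x ν → s ∉ eP y ν := by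
  obtain ⟨r1, hr1, h3⟩ := RO.mem_mkOf.1 h1 q le_rfl
  obtain ⟨r2, hr2, h4⟩ := RO.mem_mkOf.1 ((cP c b y ξ).down h2 hr1) r1 le_rfl
  obtain ⟨t, ht, hx, hy⟩ := dens_two x y r2.t
  have ht2 : (⟨t, r2.f⟩ : PC I) ≤ r2 := ⟨ht, WLe.refl _ _⟩
  refine ⟨⟨t, r2.f⟩, ht2.trans (hr2.trans hr1), ?_⟩
  by_cases hb : ∀ γ, ¬ γ < b
  · exact Or.inl hb
  right
  push Not at hb
  obtain ⟨γ0, hγ0⟩ := hb
  have hfin : (insert γ0 (t.y.Δ ∩ Iio b)).Finite := ((finite_Δ t).subset inter_subset_left).insert _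
  obtain ⟨γ, hγ, hmax⟩ := hfin.exists_maximalFor id _ ⟨γ0, mem_insert _ _⟩
  have hγb : γ < b := by
    rcases hγ with h | h
    · rw [h]; exact hγ0
    · exact h.2
  refine ⟨γ, hγb, fun ν hν hγν s hs hex hey => ?_⟩
  have hνΔ : ν ∉ t.y.Δ := fun h => absurd (hmax (mem_insert_of_mem _ ⟨h, hν⟩) hγν.le)
    (not_le.2 hγν)
  obtain ⟨ν', hν', hdf⟩ := df_of_in (t := t) (t' := s.t) hs.1 hx hy hxy hex hey hνΔ
  have h5 := cB_down c b x ξ r1 h3 r2 hr2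
  have hs2 : s ≤ r2 := hs.trans ht2
  have h6 : r2.t.s.g x ∩ Iio b = r2.t.s.g y ∩ Iio b :=
    hc inter_subset_right inter_subset_right (h5.2.2.trans h4.2.2.symm)
  rw [← g_eq hs2 h5.1 h5.2.1, ← g_eq hs2 h4.1 h4.2.1] at h6
  refine hdf ?_
  have h7 : ν' < b := hν'.trans hν
  have h8 := Set.ext_iff.1 h6 ν'
  exact ⟨fun h => (h8.1 ⟨h, h7⟩).1, fun h => (h8.2 ⟨h, h7⟩).1⟩

/-- The principle. -/
theorem starB_PC : StarB (PC Ix) :=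
  ⟨eP, dP, dP_unb, dP_clo, star_lad, fun b => by
    obtain ⟨c, hc⟩ := exists_code b
    exact ⟨cP c b, cP_uni c b, cP_tot c b, fun q x y ξ hxy h1 h2 => cP_meet hc q hxy h1 h2⟩⟩

end Pool.Agent.CG3
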