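import Pool.Agent.Lib.MP_99c1f3_lc.CG.Q.LemD
import Pool.Agent.Lib.MP_99c1f3_lc.CG.Q.StarP
import Pool.Agent.Lib.MP_99c1f3_lc.CG.Q2.Fin
import Pool.Agent.Lib.MP_99c1f3_lc.CG.Q2.Col0
import Pool.Agent.Lib.MP_99c1f3_lc.CG.Q2.Col2

/-!
# CG3, block Q, module PF: the poset `P₀` has all the required properties
-/

set_option autoImplicit false

namespace Pool.Agent.CG3

theorem exists_emb_Ix : ∃ e : K0 → Ix, Function.Injective e := by
  have h : Cardinal.mk K0 ≤ Cardinal.mk Ix := by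
    rw [Cardinal.mk_ord_toType]
    exact ((Cardinal.cantor kap).le).trans (Order.le_succ _)
  obtain ⟨e⟩ := h
  exact ⟨e, e.injective⟩

theorem pfacts : PFacts (PC Ix) := by
  obtain ⟨e, he⟩ := exists_emb_Ix
  exact ⟨PC_ne, card_PC, cc_PC, propA e he, propB e he, col0_PC Ix, col2_PC Ix, starB_PC⟩

end Pool.Agent.CG3
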