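import Pool.Agent.Lib.MP_99c1f3_lc.CG.Q.Defs
import Pool.Agent.Lib.MP_99c1f3_lc.CG.T.PropA
import Pool.Agent.Lib.MP_99c1f3_lc.CG.T.CC

/-!
# CG3, block Q, module PropAB: small predense parts of countably many dense sets, predense parts of
size `κ` of `κ` dense sets
-/

set_option autoImplicit false

namespace Pool.Agent.CG3

open Set

variable {I : Type 1}

/-- The statement of Lemma D. -/
def LemD (I : Type 1) : Prop := ∀ (s : K0 → Set (PC I)), (∀ b, DnO (s b)) → ∀ f₀ : QC I,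
  ∃ f ≤ f₀, ∀ b, ∀ t : TC I, ∃ t' ≤ t, (⟨t', f⟩ : PC I) ∈ s b

/-- The conditions `(t, f)` with fixed `f`. -/
private theorem pab_le {t' t : TC I} (h : t' ≤ t) (f : QC I) : (⟨t', f⟩ : PC I) ≤ ⟨t, f⟩ :=
  ⟨h, WLe.refl _ _⟩

private theorem pab_pre {f : QC I} {q' : PC I} {t r t'' : TC I} (h : q' ≤ ⟨t, f⟩) (h1 : t'' ≤ q'.t)
    (h2 : t'' ≤ r) : (⟨t'', q'.f⟩ : PC I) ≤ q' ∧ (⟨t'', q'.f⟩ : PC I) ≤ ⟨r, f⟩ :=
  ⟨⟨h1, WLe.refl _ _⟩, h2, h.2.mono h1⟩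

theorem propA_of_lemD (H : LemD I) (s : ℕ → Set (PC I)) (hs : ∀ n, DnO (s n)) (p : PC I) :
    ∃ q ≤ p, ∃ (J : Type) (r : J → PC I),
      ∀ n, ∀ q' ≤ q, ∃ t ≤ q', ∃ j, t ≤ r j ∧ r j ∈ s n := by
  classical
  obtain ⟨f, hf, hd⟩ := H (fun b => if h : ∃ n : ℕ, (n : K0) = b then s h.choose else univ)
    (fun b => by
      by_cases h : ∃ n : ℕ, (n : K0) = b
      · simp only [dif_pos h]; exact hs _
      · simp only [dif_neg h]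
        exact ⟨fun _ _ _ _ => trivial, fun p => ⟨p, le_rfl, trivial⟩⟩) p.f
  have hd' : ∀ n : ℕ, ∀ t : TC I, ∃ t' ≤ t, (⟨t', f⟩ : PC I) ∈ s n := by
    intro n t
    obtain ⟨t', ht', h⟩ := hd n t
    have h1 : ∃ m : ℕ, (m : K0) = (n : K0) := ⟨n, rfl⟩
    simp only [dif_pos h1] at h
    have h2 : h1.choose = n := Nat.cast_injective (R := K0) h1.choose_spec
    rw [h2] at h
    exact ⟨t', ht', h⟩
  obtain ⟨t, ht, R, hR, hp⟩ := lemmaA (fun n => {t : TC I | (⟨t, f⟩ : PC I) ∈ s n})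
    (fun n t => hd' n t) (fun n t t' h h' => (hs n).1 _ h _ (pab_le h' f)) p.t
  refine ⟨⟨t, f⟩, ⟨ht, WLe.of_le hf⟩, Shrink.{0} R,
    fun j => ⟨((equivShrink R).symm j).1, f⟩, fun n q' hq' => ?_⟩
  obtain ⟨r, hr, hrD, t'', h1, h2⟩ := hp n q'.t hq'.1
  obtain ⟨h3, h4⟩ := pab_pre hq' h1 h2
  refine ⟨⟨t'', q'.f⟩, h3, equivShrink R ⟨r, hr⟩, ?_, ?_⟩
  · simp only [Equiv.symm_apply_apply]
    exact h4
  · simp only [Equiv.symm_apply_apply]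
    exact hrD

theorem propB_of_lemD (H : LemD I) (s : K0 → Set (PC I)) (hs : ∀ n, DnO (s n)) (p : PC I) :
    ∃ q ≤ p, ∃ (r : K0 → PC I), ∀ n, ∀ q' ≤ q, ∃ t ≤ q', ∃ j, t ≤ r j ∧ r j ∈ s n := by
  classical
  obtain ⟨f, hf, hd⟩ := H s hs p.f
  choose R hR1 hR2 hR3 using fun b => ccT {t : TC I | (⟨t, f⟩ : PC I) ∈ s b} (hd b)
  obtain ⟨g, hg⟩ := SzK.iUnion hR2
  refine ⟨⟨p.t, f⟩, ⟨le_rfl, WLe.of_le hf⟩,
    fun j => if h : ∃ t ∈ ⋃ b, R b, g t = j then ⟨h.choose, f⟩ else p, fun b q' hq' => ?_⟩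
  obtain ⟨r, hr, t'', h1, h2⟩ := hR3 b q'.t
  obtain ⟨h3, h4⟩ := pab_pre hq' h1 h2
  have h5 : ∃ t ∈ ⋃ b, R b, g t = g r := ⟨r, mem_iUnion.2 ⟨b, hr⟩, rfl⟩
  have h6 : h5.choose = r := hg h5.choose_spec.1 (mem_iUnion.2 ⟨b, hr⟩) h5.choose_spec.2
  have h7 : (if h : ∃ t ∈ ⋃ b, R b, g t = g r then (⟨h.choose, f⟩ : PC I) else p) = ⟨r, f⟩ := by
    rw [dif_pos h5, h6]
  refine ⟨⟨t'', q'.f⟩, h3, g r, ?_, ?_⟩
  · exact h4.trans h7.ge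
  · change (if h : ∃ t ∈ ⋃ b, R b, g t = g r then (⟨h.choose, f⟩ : PC I) else p) ∈ s b
    rw [h7]
    exact hR1 b hr

end Pool.Agent.CG3
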