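import Pool.Agent.Lib.MP_99c1f3_lc.CG.Q.LCof
import Pool.Agent.Lib.MP_99c1f3_lc.CG.Q.Defs

/-!
# CG3, block Q, module Union: unions of chains

PROOF of `exists_union`. `η` = the least upper bound of the heights (`lub_exists`). If the
heights are cofinally `= η` (for some `j₀`, `(s j₀).eta = η`) everything is decided below. Define
`g`: `eta = η`, `A = ⋃ j, (s j).A`,
 `lam d` := `(s j).lam d` if `∃ j, d ≤ (s j).eta` (any such `j`; independent of `j` by
antitonicity and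
 linearity of `J`), otherwise if `d = η` and `η` has a ladder `l₀`, otherwise `fun _ => d`;
 `h d` := `(s j).h d` if `∃ j, d ≤ (s j).eta`, otherwise `∅`;
 `D x ν` := `(s j).D x ν` if `∃ j, x ∈ (s j).A ∧ ν ≤ (s j).eta` (independent of `j`), otherwise if
 `ν = η` and `x ∈ A` the regular set
 `{u | ∀ α < η, ∀ v ≤ u, ∃ w ≤ v, ∃ β, α < β ∧ β < η ∧ w ∈ D x β}` (for `β < η` the first case
holds:
 some `j` with `β < (s j).eta`, `x ∈ (s j).A`), otherwise `⊥`.
`IsQ`: `szA`: a union of at most `κ` sets of size at most `κ` (`hJ`, an injection `K0 × K0 → K0`,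
e.g.
from `Cardinal.mul_eq_self`). `clo`: for `γ ≤ (s j).eta` with `x ∈ (s j).A` from `s j` (the
values below
`γ` agree); otherwise `γ = η` (not attained), by definition of the regular set. `lad`: for
`d ≤ (s j).eta` from `s j`; at `d = η` not attained: `hl` gives that `l₀` is a ladder and, for
`x ∈ (s j).A`, `β` such that for `ν > β` the value `D x (l₀ ν) = (s k).D x (l₀ ν) ≤ eU ν`; so `v
= u` works.
`g ≤ s j`: clear.
`lim_small`: `J := Iio i`, `l₀` arbitrary: if no height is `η` and `η` had a ladder, this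
contradicts `not_lad_of_small` (`Iio i` is small). `lim_top`: `J := K0`, `l₀ ν := (s ν).eta`, a
ladder of
`η` (continuity by `hc`).
-/

set_option autoImplicit false

namespace Pool.Agent.CG3

open Pool.Agent.Lib.SymModel Set

variable {I : Type 1}

/-- The regular set which closes the name `D` at `η`. -/
private def unionReg (η : L) (D : L → RO UC) : RO UC where
  carrier := {u | ∀ α < η, ∀ v ≤ u, ∃ w ≤ v, ∃ β, α < β ∧ β < η ∧ w ∈ D β}
  reg p := by
    constructor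
    · intro h q hq
      exact ⟨q, le_rfl, fun α hα v hv => h α hα v (hv.trans hq)⟩
    · intro h α hα v hv
      obtain ⟨r, hr, h1⟩ := h v hv
      obtain ⟨w, hw, h2⟩ := h1 α hα r le_rfl
      exact ⟨w, hw.trans hr, h2⟩

private theorem mem_unionReg {η : L} {D : L → RO UC} {u : UC} : u ∈ unionReg η D ↔
    ∀ α < η, ∀ v ≤ u, ∃ w ≤ v, ∃ β, α < β ∧ β < η ∧ w ∈ D β := Iff.rfl

/-- A union of at most `κ` sets of size at most `κ`. -/
private theorem szK_union {J : Type 1} (hJ : ∃ f : J → K0, Function.Injective f) (B : J → Set I)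
    (hB : ∀ j, SzK (B j)) : SzK {x | ∃ j, x ∈ B j} := by
  classical
  obtain ⟨e, he⟩ := hJ
  choose F hF using hB
  obtain ⟨g⟩ : Nonempty (K0 × K0 ↪ K0) := by
    rw [← Cardinal.le_def, Cardinal.mk_prod, Cardinal.lift_id]
    exact (Cardinal.mul_eq_self lcof_aleph0_le).le
  refine ⟨fun x => if h : ∃ j, x ∈ B j then g (e h.choose, F h.choose x) else 0,
    fun x hx y hy hxy => ?_⟩
  have hx' : ∃ j, x ∈ B j := hx
  have hy' : ∃ j, y ∈ B j := hy
  simp only [dif_pos hx', dif_pos hy'] at hxy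
  have h1 := g.injective hxy
  simp only [Prod.mk.injEq] at h1
  have h2 : hx'.choose = hy'.choose := he h1.1
  have h3 := h1.2
  rw [← h2] at h3
  refine hF hx'.choose hx'.choose_spec ?_ h3
  rw [h2]
  exact hy'.choose_spec

theorem exists_union {J : Type 1} [LinearOrder J] [Nonempty J]
    (hJ : ∃ f : J → K0, Function.Injective f) (s : J → QC I) (hs : ∀ j k, j ≤ k → s k ≤ s j)
    (l₀ : K0 → L) (hl : ∀ η, IsLUB (range fun j => (s j).1.eta) η → (∀ j, (s j).1.eta < η) →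
      (∃ l, IsLad η l) → IsLad η l₀ ∧ ∀ j, ∀ x ∈ (s j).1.A, ∃ β, ∀ ν, β < ν →
        ∃ k, x ∈ (s k).1.A ∧ l₀ ν ≤ (s k).1.eta ∧ (s k).1.D x (l₀ ν) ≤ eU ν) :
    ∃ g : QC I, (∀ j, g ≤ s j) ∧ IsLUB (range fun j => (s j).1.eta) g.1.eta ∧
      (∀ x ∈ g.1.A, ∃ j, x ∈ (s j).1.A) ∧
      ((∀ j, (s j).1.eta < g.1.eta) → ∀ x, ∀ u ∈ g.1.D x g.1.eta, ∀ α < g.1.eta, ∀ v ≤ u,
        ∃ w ≤ v, ∃ β, α < β ∧ β < g.1.eta ∧ w ∈ g.1.D x β) := by
  classical
  obtain ⟨η, hη⟩ := lub_exists hJ (fun j => (s j).1.eta)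
  have hle : ∀ j, (s j).1.eta ≤ η := fun j => hη.1 ⟨j, rfl⟩
  have hlt : ∀ α < η, ∃ j, α < (s j).1.eta := by
    intro α hα
    obtain ⟨_, ⟨j, rfl⟩, h⟩ := (lt_isLUB_iff hη).1 hα
    exact ⟨j, h⟩
  have lamE : ∀ j k d, d ≤ (s j).1.eta → d ≤ (s k).1.eta → (s j).1.lam d = (s k).1.lam d := by
    intro j k d h1 h2
    rcases le_total j k with h | h
    · exact ((hs j k h).1.lam d h1).symm
    · exact (hs k j h).1.lam d h2
  have hE : ∀ j k d, d ≤ (s j).1.eta → d ≤ (s k).1.eta → (s j).1.h d = (s k).1.h d := by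
    intro j k d h1 h2
    rcases le_total j k with h | h
    · exact ((hs j k h).1.h d h1).symm
    · exact (hs k j h).1.h d h2
  have DE : ∀ j k x d, x ∈ (s j).1.A → d ≤ (s j).1.eta → x ∈ (s k).1.A → d ≤ (s k).1.eta →
      (s j).1.D x d = (s k).1.D x d := by
    intro j k x d h1 h2 h3 h4
    rcases le_total j k with h | h
    · exact ((hs j k h).2 x h1 d h2).symm
    · exact (hs k j h).2 x h3 d h4
  have joint : ∀ j k x d, x ∈ (s j).1.A → d ≤ (s k).1.eta →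
      ∃ i, x ∈ (s i).1.A ∧ d ≤ (s i).1.eta := by
    intro j k x d h1 h2
    exact ⟨max j k, (hs j _ (le_max_left _ _)).1.A h1,
      h2.trans (hs k _ (le_max_right _ _)).1.eta⟩
  obtain ⟨lamG, hlamG⟩ : ∃ lamG : L → K0 → L, lamG = fun d =>
      if h : ∃ j, d ≤ (s j).1.eta then (s h.choose).1.lam d
      else if d = η ∧ ∃ l, IsLad η l then l₀ else fun _ => d := ⟨_, rfl⟩
  obtain ⟨hG, hhG⟩ : ∃ hG : L → Set K0, hG = fun d =>
      if h : ∃ j, d ≤ (s j).1.eta then (s h.choose).1.h d else ∅ := ⟨_, rfl⟩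
  obtain ⟨D1, hD1⟩ : ∃ D1 : I → L → RO UC, D1 = fun x d =>
      if h : ∃ j, x ∈ (s j).1.A ∧ d ≤ (s j).1.eta then (s h.choose).1.D x d else ⊥ := ⟨_, rfl⟩
  obtain ⟨DG, hDG⟩ : ∃ DG : I → L → RO UC, DG = fun x d =>
      if ∃ j, x ∈ (s j).1.A ∧ d ≤ (s j).1.eta then D1 x d
      else if d = η ∧ ∃ j, x ∈ (s j).1.A then unionReg η (D1 x) else ⊥ := ⟨_, rfl⟩
  have lam1 : ∀ j d, d ≤ (s j).1.eta → lamG d = (s j).1.lam d := by
    intro j d h
    have h' : ∃ j, d ≤ (s j).1.eta := ⟨j, h⟩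
    rw [hlamG]
    simp only [dif_pos h']
    exact lamE _ _ _ h'.choose_spec h
  have h1G : ∀ j d, d ≤ (s j).1.eta → hG d = (s j).1.h d := by
    intro j d h
    have h' : ∃ j, d ≤ (s j).1.eta := ⟨j, h⟩
    rw [hhG]
    simp only [dif_pos h']
    exact hE _ _ _ h'.choose_spec h
  have D11 : ∀ j x d, x ∈ (s j).1.A → d ≤ (s j).1.eta → D1 x d = (s j).1.D x d := by
    intro j x d hx h
    have h' : ∃ j, x ∈ (s j).1.A ∧ d ≤ (s j).1.eta := ⟨j, hx, h⟩
    rw [hD1]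
    simp only [dif_pos h']
    exact DE _ _ _ _ h'.choose_spec.1 h'.choose_spec.2 hx h
  have DG0 : ∀ x d, (∃ j, x ∈ (s j).1.A ∧ d ≤ (s j).1.eta) → DG x d = D1 x d := by
    intro x d h'
    rw [hDG]
    simp only [if_pos h']
  have DG1 : ∀ j x d, x ∈ (s j).1.A → d ≤ (s j).1.eta → DG x d = (s j).1.D x d := by
    intro j x d hx h
    rw [DG0 x d ⟨j, hx, h⟩]
    exact D11 j x d hx h
  have DGtop : ∀ x, (¬ ∃ j, x ∈ (s j).1.A ∧ η ≤ (s j).1.eta) → (∃ j, x ∈ (s j).1.A) →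
      DG x η = unionReg η (D1 x) := by
    intro x h h'
    rw [hDG]
    simp only [if_neg h]
    rw [if_pos ⟨trivial, h'⟩]
  have natt : ∀ x d, d ≤ η → (∃ j, x ∈ (s j).1.A) →
      (¬ ∃ j, x ∈ (s j).1.A ∧ d ≤ (s j).1.eta) → d = η ∧ ∀ j, (s j).1.eta < η := by
    rintro x d hd ⟨j, hj⟩ hno
    have h1 : d = η := by
      by_contra h
      obtain ⟨k, hk⟩ := hlt d (lt_of_le_of_ne hd h)
      exact hno (joint j k x d hj hk.le)
    refine ⟨h1, fun k => lt_of_le_of_ne (hle k) fun h2 => ?_⟩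
    exact hno (joint j k x d hj (by rw [h1, h2]))
  have hQ : IsQ (⟨η, lamG, hG, {x | ∃ j, x ∈ (s j).1.A}, DG⟩ : QR I) := by
    refine ⟨szK_union hJ _ fun j => (s j).2.szA, ?_, ?_, ?_, ?_, ?_, ?_⟩
    · intro d hd hlad
      change IsLad d (lamG d)
      by_cases h : ∃ j, d ≤ (s j).1.eta
      · obtain ⟨j, hj⟩ := h
        rw [lam1 j d hj]
        exact (s j).2.lamOk d hj hlad
      · have h1 : d = η := by
          by_contra h2
          obtain ⟨k, hk⟩ := hlt d (lt_of_le_of_ne hd h2)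
          exact h ⟨k, hk.le⟩
        subst h1
        have h2 : ∀ j, (s j).1.eta < d := fun j => not_le.1 fun h3 => h ⟨j, h3⟩
        rw [hlamG]
        simp only [dif_neg h]
        rw [if_pos ⟨trivial, hlad⟩]
        exact (hl d hη h2 hlad).1
    · intro d hd
      change lamG d = fun _ => d
      by_cases h : ∃ j, d ≤ (s j).1.eta
      · obtain ⟨j, hj⟩ := h
        rw [lam1 j d hj]
        rcases hd with hd | hd
        · exact absurd (hj.trans (hle j)) (not_le.2 hd)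
        · exact (s j).2.lamJ d (Or.inr hd)
      · rw [hlamG]
        simp only [dif_neg h]
        rw [if_neg]
        rintro ⟨h1, h2⟩
        rcases hd with hd | hd
        · exact absurd h1 (ne_of_gt hd)
        · rw [h1] at hd
          exact hd h2
    · intro d hd
      change hG d = ∅
      have h : ¬ ∃ j, d ≤ (s j).1.eta := by
        rintro ⟨j, hj⟩
        exact absurd (hj.trans (hle j)) (not_le.2 hd)
      rw [hhG]
      simp only [dif_neg h]
    · intro x d hd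
      change DG x d = ⊥
      have h : ¬ ∃ j, x ∈ (s j).1.A ∧ d ≤ (s j).1.eta := by
        rintro ⟨j, hx, hj⟩
        rcases hd with hd | hd
        · exact hd ⟨j, hx⟩
        · exact absurd (hj.trans (hle j)) (not_le.2 hd)
      rw [hDG]
      simp only [if_neg h]
      rw [if_neg]
      rintro ⟨h1, h2⟩
      rcases hd with hd | hd
      · exact hd h2
      · exact absurd h1 (ne_of_gt hd)
    · intro x hx γ hγ hα u hu
      change u ∈ DG x γ
      by_cases h : ∃ j, x ∈ (s j).1.A ∧ γ ≤ (s j).1.eta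
      · obtain ⟨j, hxj, hj⟩ := h
        rw [DG1 j x γ hxj hj]
        refine (s j).2.clo x hxj γ hj hα u fun α hα v hv => ?_
        obtain ⟨w, hw, β, h1, h2, h3⟩ := hu α hα v hv
        refine ⟨w, hw, β, h1, h2, ?_⟩
        rw [← DG1 j x β hxj (h2.le.trans hj)]
        exact h3
      · obtain ⟨h1, h2⟩ := natt x γ hγ hx h
        subst h1
        rw [DGtop x h hx, mem_unionReg]
        intro α hα v hv
        obtain ⟨w, hw, β, h3, h4, h5⟩ := hu α hα v hv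
        refine ⟨w, hw, β, h3, h4, ?_⟩
        obtain ⟨j, hj⟩ := hx
        obtain ⟨k, hk⟩ := hlt β h4
        rw [← DG0 x β (joint j k x β hj hk.le)]
        exact h5
    · intro x hx d hd hlad u
      change ∃ v ≤ u, ∃ β, ∀ ν, β < ν → ∀ w ≤ v, w ∈ DG x (lamG d ν) → In w.1 ν
      by_cases h : ∃ j, x ∈ (s j).1.A ∧ d ≤ (s j).1.eta
      · obtain ⟨j, hxj, hj⟩ := h
        obtain ⟨v, hv, β, h1⟩ := (s j).2.lad x hxj d hj hlad u
        refine ⟨v, hv, β, fun ν hν w hw hwD => h1 ν hν w hw ?_⟩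
        rw [lam1 j d hj] at hwD
        have h2 := ((s j).2.lamOk d hj hlad).lt ν
        rwa [DG1 j x _ hxj (h2.le.trans hj)] at hwD
      · obtain ⟨h1, h2⟩ := natt x d hd hx h
        subst h1
        obtain ⟨j, hj⟩ := hx
        obtain ⟨β, hβ⟩ := (hl d hη h2 hlad).2 j x hj
        refine ⟨u, le_rfl, β, fun ν hν w _ hwD => ?_⟩
        obtain ⟨k, hk1, hk2, hk3⟩ := hβ ν hν
        have h3 : ¬ ∃ j, d ≤ (s j).1.eta := by
          rintro ⟨i, hi⟩
          exact absurd hi (not_le.2 (h2 i))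
        have h4 : lamG d = l₀ := by
          rw [hlamG]
          simp only [dif_neg h3]
          rw [if_pos ⟨trivial, hlad⟩]
        rw [h4, DG1 k x _ hk1 hk2] at hwD
        exact mem_eU.1 (hk3 w hwD)
  refine ⟨⟨_, hQ⟩, fun j => ⟨⟨hle j, fun d hd => lam1 j d hd, fun d hd => h1G j d hd,
    fun x hx => ⟨j, hx⟩⟩, fun x hx ν hν => DG1 j x ν hx hν⟩, hη, fun x hx => hx, ?_⟩
  intro h2 x u hu
  change u ∈ DG x η at hu
  change ∀ α < η, ∀ v ≤ u, ∃ w ≤ v, ∃ β, α < β ∧ β < η ∧ w ∈ DG x β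
  have h : ¬ ∃ j, x ∈ (s j).1.A ∧ η ≤ (s j).1.eta := by
    rintro ⟨j, -, hj⟩
    exact absurd hj (not_le.2 (h2 j))
  by_cases hx : ∃ j, x ∈ (s j).1.A
  · rw [DGtop x h hx, mem_unionReg] at hu
    intro α hα v hv
    obtain ⟨w, hw, β, h3, h4, h5⟩ := hu α hα v hv
    refine ⟨w, hw, β, h3, h4, ?_⟩
    obtain ⟨j, hj⟩ := hx
    obtain ⟨k, hk⟩ := hlt β h4
    rw [DG0 x β (joint j k x β hj hk.le)]
    exact h5
  · exfalso
    rw [hDG] at hu
    simp only [if_neg h] at hu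
    rw [if_neg (fun h3 => hx h3.2)] at hu
    exact RO.notMem_bot _ hu

theorem lim_small {i : K0} (hi : 0 < i) (s : K0 → QC I) (hs : ∀ j k, j ≤ k → k < i → s k ≤ s j) :
    ∃ g : QC I, (∀ j < i, g ≤ s j) ∧ IsLUB ((fun j => (s j).1.eta) '' Iio i) g.1.eta ∧
      (∀ x ∈ g.1.A, ∃ j < i, x ∈ (s j).1.A) ∧
      ((∀ j < i, (s j).1.eta < g.1.eta) → ∀ x, ∀ u ∈ g.1.D x g.1.eta, ∀ α < g.1.eta, ∀ v ≤ u,
        ∃ w ≤ v, ∃ β, α < β ∧ β < g.1.eta ∧ w ∈ g.1.D x β) := by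
  have hne : Nonempty (Iio i) := ⟨⟨0, hi⟩⟩
  obtain ⟨g, h1, h2, h3, h4⟩ := exists_union (J := Iio i) ⟨Subtype.val, Subtype.val_injective⟩
    (fun j => s j.1) (fun j k hjk => hs j.1 k.1 hjk k.2) (fun _ => (s 0).1.eta) (by
      intro η hη hlt hlad
      exfalso
      refine not_lad_of_small (fun j : Iio i => (s j.1).1.eta) hlt (fun α hα => ?_) hlad
      obtain ⟨_, ⟨j, rfl⟩, h⟩ := (lt_isLUB_iff hη).1 hα
      exact ⟨j, h.le⟩)
  refine ⟨g, fun j hj => h1 ⟨j, hj⟩, ?_, fun x hx => ?_, fun h5 => h4 fun j => h5 j.1 j.2⟩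
  · rw [image_eq_range]
    exact h2
  · obtain ⟨j, hj⟩ := h3 x hx
    exact ⟨j.1, j.2, hj⟩

theorem lim_top (s : K0 → QC I) (hs : ∀ j k, j ≤ k → s k ≤ s j)
    (hm : StrictMono fun j => (s j).1.eta)
    (hc : ∀ i, Order.IsSuccLimit i → ∀ α < (s i).1.eta, ∃ j < i, α < (s j).1.eta)
    (hl : ∀ j, ∀ x ∈ (s j).1.A, ∃ β, ∀ ν, β < ν → (s ν).1.D x (s ν).1.eta ≤ eU ν) :
    ∃ g : QC I, ∀ j, g ≤ s j := by
  obtain ⟨g, h1, -, -, -⟩ := exists_union (J := K0) ⟨id, Function.injective_id⟩ s hs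
    (fun ν => (s ν).1.eta) (by
      intro η hη hlt _
      refine ⟨⟨hm, hlt, fun α hα => ?_, hc⟩, fun j x hx => ?_⟩
      · obtain ⟨_, ⟨j, rfl⟩, h⟩ := (lt_isLUB_iff hη).1 hα
        exact ⟨j, h⟩
      · obtain ⟨β, hβ⟩ := hl j x hx
        refine ⟨max β j, fun ν hν => ⟨ν, ?_, le_rfl, hβ ν ((le_max_left _ _).trans_lt hν)⟩⟩
        exact (hs j ν ((le_max_right _ _).trans hν.le)).1.A hx)
  exact ⟨g, h1⟩

end Pool.Agent.CG3
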