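import Pool.Agent.Lib.MP_99c1f3_lc.CG.Q.Mix
import Pool.Agent.Lib.MP_99c1f3_lc.CG.Q.Union
import Pool.Agent.Lib.MP_99c1f3_lc.CG.Q.Hist
import Pool.Agent.Lib.MP_99c1f3_lc.CG.Q.EUc

/-!
# CG3, block Q, module Stage: one stage of the construction

PROOFS. `MExt.refl`, `MExt.trans`: for `ν` between `f.eta` and `g.eta` the value of `h` is that of `g`,
for `ν > g.eta` use `x ∈ g.A`.
`MExt_lim`: `g` from `lim_small`. `MExt K i g (s j)` for `j < γ`: let `x ∈ (s j).A ∩ K`,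
`(s j).eta < ν`. If `ν ≤ (s k).eta` for some `k < γ` (w.l.o.g. `j ≤ k`): `g.D x ν = (s k).D x ν ≤ eU i` by
`MExt K i (s k) (s j)`. If `ν > g.eta`: the value is `⊥` (`DJ`). Otherwise `ν = g.eta` is not attained
(the least upper bound): for `u ∈ g.D x ν` show `u ∈ eU i` by `mem_of_dense`: `v ≤ u`, the top clause
at `α = (s j).eta` gives `w ≤ v`, `β ∈ (α, ν)`, `w ∈ g.D x β`, and `β ≤ (s k).eta` for some `k`, so
`w ∈ eU i` by the first case.
`stage`: `Z` is small, so there are `θ : K0` and `z : K0 → _` with `Z = z '' Iio θ` (well-order a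
small copy of `Z`: e.g. `Shrink.{0} Z`, `Ordinal.type`, `Ordinal.enum`; if `Z` is empty take `g = f`).
By `exists_hist` (on `K0`) choose `s : K0 → QC I` with: `MExt K i (s j) f`, `MExt K i (s j) (s k)` for
`k < j`, and if `j < θ`, then for `z j` there is `t ≤ (z j).1` with `(t, s j) ∈ (z j).2`: first a lower
bound of the `s k`, `k < j` (`f` if `j = 0`, otherwise `MExt_lim`), then `mask_step`. `g := s θ`:
`(t, s j) ∈ (z j).2` and `(t, g) ≤ (t, s j)` (`WLe.of_le`), `DnO` is open.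
-/

set_option autoImplicit false

namespace Pool.Agent.CG3

open Pool.Agent.Lib.SymModel Set

variable {I : Type 1}

theorem MExt.refl (K : Set I) (i : K0) (f : QC I) : MExt K i f f := by
  refine ⟨le_rfl, fun x _ _ ν hν => ?_⟩
  rw [f.2.DJ x ν (Or.inr hν)]
  exact bot_le

theorem MExt.trans {K : Set I} {i : K0} {h g f : QC I} (h1 : MExt K i h g) (h2 : MExt K i g f) :
    MExt K i h f := by
  refine ⟨h1.1.trans h2.1, fun x hx hxK ν hν => ?_⟩
  have hxg : x ∈ g.1.A := h2.1.1.A hx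
  rcases le_or_gt ν g.1.eta with h3 | h3
  · rw [h1.1.2 x hxg ν h3]
    exact h2.2 x hx hxK ν hν
  · exact h1.2 x hxg hxK ν h3

theorem MExt_lim {K : Set I} {i γ : K0} (hγ : 0 < γ) (s : K0 → QC I)
    (hs : ∀ j k, j ≤ k → k < γ → MExt K i (s k) (s j)) : ∃ g, ∀ j < γ, MExt K i g (s j) := by
  obtain ⟨g, hg1, hg2, _, hg4⟩ := lim_small hγ s (fun j k h1 h2 => (hs j k h1 h2).1)
  refine ⟨g, fun j hj => ⟨hg1 j hj, fun x hx hxK => ?_⟩⟩
  have key : ∀ ν, (s j).1.eta < ν → (∃ k < γ, ν ≤ (s k).1.eta) → g.1.D x ν ≤ eU i := by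
    rintro ν hν ⟨k, hk, hνk⟩
    have hjk : j ≤ k := by
      by_contra h
      have h1 := (hs k j (not_le.1 h).le hj).1.1.eta
      exact absurd (hν.trans_le (hνk.trans h1)) (lt_irrefl _)
    have hxk : x ∈ (s k).1.A := (hs j k hjk hk).1.1.A hx
    rw [(hg1 k hk).2 x hxk ν hνk]
    exact (hs j k hjk hk).2 x hx hxK ν hν
  intro ν hν
  by_cases h1 : ∃ k < γ, ν ≤ (s k).1.eta
  · exact key ν hν h1
  · have h2 : ∀ k < γ, (s k).1.eta < ν := fun k hk =>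
      not_le.1 fun h => h1 ⟨k, hk, h⟩
    have h3 : g.1.eta ≤ ν := hg2.2 (by
      rintro _ ⟨k, hk, rfl⟩
      exact (h2 k hk).le)
    rcases h3.lt_or_eq with h4 | h4
    · rw [g.2.DJ x ν (Or.inr h4)]
      exact bot_le
    · subst h4
      intro u hu
      refine (eU i).mem_of_dense fun v hv => ?_
      obtain ⟨w, hw, β, hβ1, hβ2, hβ3⟩ := hg4 h2 x u hu (s j).1.eta hν v hv
      obtain ⟨_, ⟨k, hk, rfl⟩, hβk⟩ := (lt_isLUB_iff hg2).1 hβ2
      exact ⟨w, hw, key β hβ1 ⟨k, hk, hβk.le⟩ w hβ3⟩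

/-- A small set is enumerated by an initial segment of `K0`. -/
private theorem stage_enum {A : Type 1} {Z : Set A} (hsm : Small.{0} Z) :
    ∃ θ : K0, Nonempty (Set.Iio θ ≃ Z) := by
  have h1 : Cardinal.mk (Cardinal.mk (Shrink.{0} Z)).ord.ToType = Cardinal.mk (Shrink.{0} Z) :=
    Cardinal.mk_ord_toType _
  obtain ⟨e⟩ := Cardinal.eq.1 h1
  exact ⟨(Cardinal.mk (Shrink.{0} Z)).ord,
    ⟨(Ordinal.ToType.mk.toEquiv.trans e).trans (equivShrink Z).symm⟩⟩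

theorem stage {K : Set I} {i : K0} {Z : Set (TC I × Set (PC I))} (hsm : Small.{0} Z)
    (hZ : ∀ z ∈ Z, (∀ t ≤ z.1, ∀ x ∈ K, In (pr x t).1 i) ∧ DnO z.2) (f : QC I) :
    ∃ g, MExt K i g f ∧ ∀ z ∈ Z, ∃ t ≤ z.1, (⟨t, g⟩ : PC I) ∈ z.2 := by
  classical
  obtain ⟨θ, ⟨φ⟩⟩ := stage_enum hsm
  obtain ⟨s, hs⟩ := exists_hist (α := K0) (S := QC I)
    (fun j hist x => MExt K i x f ∧ (∀ k (hk : k < j), MExt K i x (hist k hk)) ∧
      ∀ hj : j < θ, ∃ t ≤ (φ ⟨j, hj⟩).1.1, (⟨t, x⟩ : PC I) ∈ (φ ⟨j, hj⟩).1.2) (by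
    intro j s ih
    obtain ⟨f', hf1, hf2⟩ : ∃ f', MExt K i f' f ∧ ∀ k (hk : k < j), MExt K i f' (s k hk) := by
      rcases eq_or_ne j 0 with h0 | h0
      · refine ⟨f, MExt.refl K i f, fun k hk => ?_⟩
        rw [h0] at hk
        exact absurd hk (not_lt.2 zero_le)
      · have hj0 : 0 < j := pos_iff_ne_zero.2 h0
        obtain ⟨s', hs'⟩ : ∃ s' : K0 → QC I, ∀ k (hk : k < j), s' k = s k hk :=
          ⟨fun k => if h : k < j then s k h else f, fun k hk => dif_pos hk⟩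
        obtain ⟨g, hg⟩ := MExt_lim (K := K) (i := i) hj0 s' (by
          intro a b hab hb
          rcases hab.lt_or_eq with h1 | h1
          · rw [hs' b hb, hs' a (h1.trans hb)]
            exact (ih b hb).2.1 a h1
          · rw [h1]
            exact MExt.refl K i _)
        refine ⟨g, ?_, fun k hk => ?_⟩
        · have h1 := hg 0 hj0
          rw [hs' 0 hj0] at h1
          exact h1.trans (ih 0 hj0).1
        · rw [← hs' k hk]
          exact hg k hk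
    by_cases hj : j < θ
    · obtain ⟨t, ht, g, hg1, hg2⟩ := mask_step (hZ _ (φ ⟨j, hj⟩).2).1 (hZ _ (φ ⟨j, hj⟩).2).2 f'
      exact ⟨g, hg1.trans hf1, fun k hk => hg1.trans (hf2 k hk), fun _ => ⟨t, ht, hg2⟩⟩
    · exact ⟨f', hf1, hf2, fun h => absurd h hj⟩)
  refine ⟨s θ, (hs θ).1, fun z hz => ?_⟩
  obtain ⟨j, hj⟩ : ∃ j, φ j = ⟨z, hz⟩ := φ.surjective _
  obtain ⟨t, ht, h1⟩ := (hs j.1).2.2 j.2
  have h2 : (φ ⟨j.1, j.2⟩) = ⟨z, hz⟩ := hj
  rw [h2] at ht h1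
  refine ⟨t, ht, (hZ z hz).2.1 _ h1 _ ?_⟩
  exact ⟨le_rfl, WLe.of_le ((hs θ).2.1 j.1 j.2).1⟩

end Pool.Agent.CG3
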